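import Pool.Agent.MP_a69704_mp.Young

open MeasureTheory Set Filter Topology
open scoped ENNReal NNReal

noncomputable section

namespace Pool.Agent.MP_a69704_mp

lemma eLpNorm_two_sq {F : Type*} [NormedAddCommGroup F] (f : E3 → F) :
    eLpNorm f 2 volume ^ 2 = ∫⁻ x, ‖f x‖ₑ ^ 2 := by
  rw [eLpNorm_eq_lintegral_rpow_enorm_toReal (by norm_num) (by norm_num)]
  rw [← ENNReal.rpow_natCast, ← ENNReal.rpow_mul]
  norm_num

lemma eLpNorm_two_le_of_sq {F F' : Type*} [NormedAddCommGroup F] [NormedAddCommGroup F']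
    {f : E3 → F} {g : E3 → F'} (h : ∫⁻ x, ‖f x‖ₑ ^ 2 ≤ ∫⁻ x, ‖g x‖ₑ ^ 2) :
    eLpNorm f 2 volume ≤ eLpNorm g 2 volume := by
  rw [← eLpNorm_two_sq, ← eLpNorm_two_sq] at h
  exact (ENNReal.pow_le_pow_left_iff (by norm_num)).1 h

/-- standard bump -/
def cut : ContDiffBump (0 : E3) := ⟨1, 2, by norm_num, by norm_num⟩

/-- scaled cutoff -/
def cutn (n : ℕ) (x : E3) : ℝ := cut (((n : ℝ) + 1)⁻¹ • x)

lemma contDiff_cutn (n : ℕ) : ContDiff ℝ (⊤ : ℕ∞) (cutn n) :=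
  cut.contDiff.comp (contDiff_id.const_smul _)

lemma cutn_nonneg (n : ℕ) (x : E3) : 0 ≤ cutn n x := cut.nonneg
lemma cutn_le_one (n : ℕ) (x : E3) : cutn n x ≤ 1 := cut.le_one

lemma hasCompactSupport_cutn (n : ℕ) : HasCompactSupport (cutn n) := by
  have h : ((n : ℝ) + 1)⁻¹ ≠ 0 := by positivity
  exact cut.hasCompactSupport.comp_homeomorph (Homeomorph.smulOfNeZero _ h)

lemma tendsto_cutn (x : E3) : Tendsto (fun n => cutn n x) atTop (𝓝 1) := by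
  apply tendsto_const_nhds.congr'
  obtain ⟨N, hN⟩ := exists_nat_ge ‖x‖
  filter_upwards [eventually_ge_atTop N] with n hn
  have : ((n : ℝ) + 1)⁻¹ • x ∈ Metric.closedBall (0 : E3) cut.rIn := by
    rw [mem_closedBall_zero_iff, norm_smul, norm_inv, Real.norm_of_nonneg (by positivity)]
    have h1 : (N : ℝ) ≤ n := by exact_mod_cast hn
    have h2 : cut.rIn = 1 := rfl
    rw [h2, inv_mul_le_iff₀ (by positivity)]
    linarith
  exact (cut.one_of_mem_closedBall this).symm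

lemma exists_bound_fderiv_cut : ∃ C : ℝ, 0 ≤ C ∧ ∀ x, ‖fderiv ℝ cut x‖ ≤ C := by
  have h1 : Continuous (fderiv ℝ (cut : E3 → ℝ)) :=
    (cut.contDiff (n := 1)).continuous_fderiv (by simp)
  have h2 : HasCompactSupport (fderiv ℝ (cut : E3 → ℝ)) := cut.hasCompactSupport.fderiv ℝ
  obtain ⟨C, hC⟩ := h2.exists_bound_of_continuous h1
  exact ⟨max C 0, le_max_right _ _, fun x => (hC x).trans (le_max_left _ _)⟩

lemma exists_bound_fderiv_cutn : ∃ C : ℝ, 0 ≤ C ∧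
    ∀ n x, ‖fderiv ℝ (cutn n) x‖ ≤ C * ((n : ℝ) + 1)⁻¹ := by
  obtain ⟨C, hC0, hC⟩ := exists_bound_fderiv_cut
  refine ⟨C, hC0, fun n x => ?_⟩
  have h1 : HasFDerivAt (cut : E3 → ℝ) (fderiv ℝ cut (((n : ℝ) + 1)⁻¹ • x)) (((n : ℝ) + 1)⁻¹ • x) :=
    (((cut.contDiff (n := 1)).differentiable (by simp)) _).hasFDerivAt
  have h2 : HasFDerivAt (fun x : E3 => ((n : ℝ) + 1)⁻¹ • x)
      (((n : ℝ) + 1)⁻¹ • ContinuousLinearMap.id ℝ E3) x :=
    (((n : ℝ) + 1)⁻¹ • ContinuousLinearMap.id ℝ E3).hasFDerivAt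
  have h3 : HasFDerivAt (cutn n)
      ((fderiv ℝ cut (((n : ℝ) + 1)⁻¹ • x)).comp (((n : ℝ) + 1)⁻¹ • ContinuousLinearMap.id ℝ E3)) x :=
    h1.comp x h2
  rw [h3.fderiv]
  have h4 : ‖((n : ℝ) + 1)⁻¹ • ContinuousLinearMap.id ℝ E3‖ ≤ ((n : ℝ) + 1)⁻¹ := by
    rw [norm_smul, norm_inv, Real.norm_of_nonneg (by positivity)]
    have := ContinuousLinearMap.norm_id_le (𝕜 := ℝ) (E := E3)
    have h5 : (0 : ℝ) ≤ ((n : ℝ) + 1)⁻¹ := by positivity
    nlinarith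
  calc _ ≤ ‖fderiv ℝ cut (((n : ℝ) + 1)⁻¹ • x)‖ * ‖((n : ℝ) + 1)⁻¹ • ContinuousLinearMap.id ℝ E3‖ :=
        ContinuousLinearMap.opNorm_comp_le _ _
    _ ≤ C * ((n : ℝ) + 1)⁻¹ := by
        gcongr
        exact hC _

/-- mollifying bumps -/
def mb (n : ℕ) : ContDiffBump (0 : E3) :=
  ⟨((n : ℝ) + 1)⁻¹ / 2, ((n : ℝ) + 1)⁻¹, by positivity, by
    have : (0 : ℝ) < ((n : ℝ) + 1)⁻¹ := by positivity
    linarith⟩

/-- mollifiers -/
def eta (n : ℕ) : E3 → ℝ := (mb n).normed volume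

lemma isMollifier_eta (n : ℕ) : IsMollifier (eta n) where
  smooth := (mb n).contDiff_normed
  cc := (mb n).hasCompactSupport_normed
  nonneg := (mb n).nonneg_normed
  mass := (mb n).integral_normed

lemma tendsto_smear {f : E3 → ℝ} (hf : LocallyIntegrable f) :
    ∀ᵐ x, Tendsto (fun n => smear (eta n) f x) atTop (𝓝 (f x)) := by
  simp_rw [smear_eq_convolution]
  apply ContDiffBump.ae_convolution_tendsto_right_of_locallyIntegrable (K := 2) (φ := mb)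
  · have : (fun n : ℕ => (mb n).rOut) = fun n : ℕ => 1 / ((n : ℝ) + 1) := by
      ext n; simp [mb]
    rw [this]
    exact tendsto_one_div_add_atTop_nhds_zero_nat
  · filter_upwards with n
    simp only [mb]
    linarith
  · exact hf

/-- approximating sequence -/
def apx (ψ : E3 → ℝ) (n : ℕ) (x : E3) : ℝ := cutn n x * smear (eta n) ψ x

lemma contDiff_apx {ψ : E3 → ℝ} (hψ : LocallyIntegrable ψ) (n : ℕ) :
    ContDiff ℝ (⊤ : ℕ∞) (apx ψ n) :=
  (contDiff_cutn n).mul (contDiff_smear (isMollifier_eta n) hψ)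

lemma hasCompactSupport_apx (ψ : E3 → ℝ) (n : ℕ) : HasCompactSupport (apx ψ n) :=
  (hasCompactSupport_cutn n).mul_right

lemma tendsto_apx {ψ : E3 → ℝ} (hψ : LocallyIntegrable ψ) :
    ∀ᵐ x, Tendsto (fun n => apx ψ n x) atTop (𝓝 (ψ x)) := by
  filter_upwards [tendsto_smear hψ] with x hx
  have := (tendsto_cutn x).mul hx
  rw [one_mul] at this
  exact this

lemma locInt_of_memLp {F : Type*} [NormedAddCommGroup F] {f : E3 → F} {q : ℝ≥0∞}
    (hq : 1 ≤ q) (hf : MemLp f q) : LocallyIntegrable f :=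
  hf.locallyIntegrable hq

lemma eLpNorm_smear_le {F : Type*} [NormedAddCommGroup F] [NormedSpace ℝ F] (n : ℕ)
    {f : E3 → F} (hf : AEStronglyMeasurable f) :
    eLpNorm (smear (eta n) f) 2 volume ≤ eLpNorm f 2 volume :=
  eLpNorm_two_le_of_sq (lintegral_enorm_smear_sq_le (isMollifier_eta n).smooth.continuous
    (isMollifier_eta n).lintegral hf)

lemma eLpNorm_apx_le {ψ : E3 → ℝ} (hψ : AEStronglyMeasurable ψ) (n : ℕ) :
    eLpNorm (apx ψ n) 2 volume ≤ eLpNorm ψ 2 volume := by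
  refine le_trans (eLpNorm_mono fun x => ?_) (eLpNorm_smear_le n hψ)
  unfold apx
  rw [norm_mul, Real.norm_of_nonneg (cutn_nonneg n x)]
  have := cutn_le_one n x
  nlinarith [norm_nonneg (smear (eta n) ψ x)]

lemma exists_eLpNorm_fderiv_apx_le : ∃ C : ℝ≥0, ∀ {ψ : E3 → ℝ} {G : E3 → E3},
    MemLp ψ 2 → MemLp G 2 → IsWeakGradient ψ G → ∀ n : ℕ,
    eLpNorm (fderiv ℝ (apx ψ n)) 2 volume
      ≤ eLpNorm G 2 volume + (C : ℝ≥0∞) * ENNReal.ofReal (((n : ℝ) + 1)⁻¹) * eLpNorm ψ 2 volume := by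
  obtain ⟨C, hC0, hC⟩ := exists_bound_fderiv_cutn
  refine ⟨C.toNNReal, ?_⟩
  intro ψ G hψ hG hw n
  have lψ := locInt_of_memLp (by norm_num) hψ
  have lG := locInt_of_memLp (by norm_num) hG
  have hs := contDiff_smear (isMollifier_eta n) lψ
  have hm := isMollifier_eta n
  have hpt : ∀ x, ‖fderiv ℝ (apx ψ n) x‖
      ≤ ‖smear (eta n) G x‖ + C * ((n : ℝ) + 1)⁻¹ * ‖smear (eta n) ψ x‖ := by
    intro x
    have h1 : HasFDerivAt (cutn n) (fderiv ℝ (cutn n) x) x :=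
      (((contDiff_cutn n).differentiable (by simp)) x).hasFDerivAt
    have h2 : HasFDerivAt (smear (eta n) ψ) (fderiv ℝ (smear (eta n) ψ) x) x :=
      ((hs.differentiable (by simp)) x).hasFDerivAt
    have h3 : HasFDerivAt (apx ψ n)
      (cutn n x • fderiv ℝ (smear (eta n) ψ) x + smear (eta n) ψ x • fderiv ℝ (cutn n) x) x := h1.mul h2
    rw [h3.fderiv]
    refine (norm_add_le _ _).trans ?_
    rw [norm_smul, norm_smul, Real.norm_of_nonneg (cutn_nonneg n x)]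
    have h4 := norm_fderiv_smear_le hm lψ lG hw x
    have h5 := hC n x
    have h6 := cutn_le_one n x
    have h7 := cutn_nonneg n x
    have h8 := norm_nonneg (fderiv ℝ (smear (eta n) ψ) x)
    have h9 := norm_nonneg (smear (eta n) ψ x)
    nlinarith
  have hCn : 0 ≤ C * ((n : ℝ) + 1)⁻¹ := by positivity
  calc eLpNorm (fderiv ℝ (apx ψ n)) 2 volume
      ≤ eLpNorm (fun x => ‖smear (eta n) G x‖ + C * ((n : ℝ) + 1)⁻¹ * ‖smear (eta n) ψ x‖) 2 volume := by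
        apply eLpNorm_mono_real
        exact hpt
    _ ≤ eLpNorm (fun x => ‖smear (eta n) G x‖) 2 volume
        + eLpNorm (fun x => C * ((n : ℝ) + 1)⁻¹ * ‖smear (eta n) ψ x‖) 2 volume := by
        apply eLpNorm_add_le _ _ (by norm_num)
        · exact (contDiff_smear hm lG).continuous.norm.aestronglyMeasurable
        · exact (continuous_const.mul hs.continuous.norm).aestronglyMeasurable
    _ ≤ _ := by
        rw [eLpNorm_norm]
        have e1 : eLpNorm (fun x => C * ((n : ℝ) + 1)⁻¹ * ‖smear (eta n) ψ x‖) 2 volume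
            = ENNReal.ofReal (C * ((n : ℝ) + 1)⁻¹) * eLpNorm (smear (eta n) ψ) 2 volume := by
          have := eLpNorm_const_smul (C * ((n : ℝ) + 1)⁻¹) (fun x => ‖smear (eta n) ψ x‖) 2
            (volume : Measure E3)
          rw [eLpNorm_norm] at this
          rw [Real.enorm_eq_ofReal hCn] at this
          exact this
        rw [e1]
        rw [ENNReal.ofReal_mul hC0]
        exact add_le_add (eLpNorm_smear_le n hG.1) (mul_le_mul_right (eLpNorm_smear_le n hψ.1) _)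

/-- Transfer of quadratic inequalities from smooth compactly supported functions to
weakly differentiable ones. -/
theorem transfer {W : E3 → ℝ≥0∞} (hW : Measurable W) {α β : ℝ≥0∞} (hα : α ≠ ∞) (hβ : β ≠ ∞)
    (h : ∀ u : E3 → ℝ, ContDiff ℝ (⊤ : ℕ∞) u → HasCompactSupport u →
      ∫⁻ x, ‖u x‖ₑ ^ 2 * W x ≤ α * (∫⁻ x, ‖fderiv ℝ u x‖ₑ ^ 2) + β * ∫⁻ x, ‖u x‖ₑ ^ 2)
    {ψ : E3 → ℝ} {G : E3 → E3} (hψ : MemLp ψ 2) (hG : MemLp G 2) (hw : IsWeakGradient ψ G) :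
    ∫⁻ x, ‖ψ x‖ₑ ^ 2 * W x ≤ α * (∫⁻ x, ‖G x‖ₑ ^ 2) + β * ∫⁻ x, ‖ψ x‖ₑ ^ 2 := by
  obtain ⟨C, hC⟩ := exists_eLpNorm_fderiv_apx_le
  have lψ := locInt_of_memLp (by norm_num) hψ
  have hae := tendsto_apx lψ
  -- Fatou
  have h1 : ∫⁻ x, ‖ψ x‖ₑ ^ 2 * W x ≤ liminf (fun n => ∫⁻ x, ‖apx ψ n x‖ₑ ^ 2 * W x) atTop := by
    have h2 : ∫⁻ x, ‖ψ x‖ₑ ^ 2 * W x ≤ ∫⁻ x, liminf (fun n => ‖apx ψ n x‖ₑ ^ 2 * W x) atTop := by
      apply lintegral_mono_ae
      filter_upwards [hae] with x hx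
      have h3 : Tendsto (fun n => ‖apx ψ n x‖ₑ ^ 2) atTop (𝓝 (‖ψ x‖ₑ ^ 2)) :=
        ENNReal.Tendsto.pow (hx.enorm)
      by_cases hWx : W x = ∞
      · by_cases h0 : ‖ψ x‖ₑ ^ 2 = 0
        · rw [h0, zero_mul]; simp
        · have h4 : Tendsto (fun n => ‖apx ψ n x‖ₑ ^ 2 * W x) atTop (𝓝 (‖ψ x‖ₑ ^ 2 * W x)) :=
            ENNReal.Tendsto.mul_const h3 (Or.inl h0)
          rw [h4.liminf_eq]
      · have h4 : Tendsto (fun n => ‖apx ψ n x‖ₑ ^ 2 * W x) atTop (𝓝 (‖ψ x‖ₑ ^ 2 * W x)) :=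
          ENNReal.Tendsto.mul_const h3 (Or.inr hWx)
        rw [h4.liminf_eq]
    refine h2.trans (lintegral_liminf_le fun n => ?_)
    exact ((contDiff_apx lψ n).continuous.enorm.measurable.pow_const 2).mul hW
  -- bounds
  have h5 : ∀ n, ∫⁻ x, ‖apx ψ n x‖ₑ ^ 2 * W x ≤
      α * (eLpNorm G 2 volume + (C : ℝ≥0∞) * ENNReal.ofReal (((n : ℝ) + 1)⁻¹) * eLpNorm ψ 2 volume) ^ 2
        + β * ∫⁻ x, ‖ψ x‖ₑ ^ 2 := by
    intro n
    refine (h _ (contDiff_apx lψ n) (hasCompactSupport_apx ψ n)).trans ?_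
    rw [← eLpNorm_two_sq, ← eLpNorm_two_sq, ← eLpNorm_two_sq]
    gcongr
    · exact hC hψ hG hw n
    · exact eLpNorm_apx_le hψ.1 n
  have h6 : Tendsto (fun n : ℕ => α * (eLpNorm G 2 volume
        + (C : ℝ≥0∞) * ENNReal.ofReal (((n : ℝ) + 1)⁻¹) * eLpNorm ψ 2 volume) ^ 2
        + β * ∫⁻ x, ‖ψ x‖ₑ ^ 2) atTop
      (𝓝 (α * (eLpNorm G 2 volume) ^ 2 + β * ∫⁻ x, ‖ψ x‖ₑ ^ 2)) := by
    apply Tendsto.add _ tendsto_const_nhds
    apply ENNReal.Tendsto.const_mul _ (Or.inr hα)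
    apply ENNReal.Tendsto.pow
    have h7 : Tendsto (fun n : ℕ => (C : ℝ≥0∞) * ENNReal.ofReal (((n : ℝ) + 1)⁻¹)
        * eLpNorm ψ 2 volume) atTop (𝓝 ((C : ℝ≥0∞) * ENNReal.ofReal 0 * eLpNorm ψ 2 volume)) := by
      apply ENNReal.Tendsto.mul_const _ (Or.inr hψ.eLpNorm_ne_top)
      apply ENNReal.Tendsto.const_mul _ (Or.inr ENNReal.coe_ne_top)
      apply (ENNReal.continuous_ofReal.tendsto 0).comp
      have : (fun n : ℕ => ((n : ℝ) + 1)⁻¹) = fun n : ℕ => 1 / ((n : ℝ) + 1) := by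
        ext n; simp
      rw [this]
      exact tendsto_one_div_add_atTop_nhds_zero_nat
    simpa using (tendsto_const_nhds (x := eLpNorm G 2 volume)).add h7
  refine h1.trans ?_
  rw [← eLpNorm_two_sq G]
  calc liminf (fun n => ∫⁻ x, ‖apx ψ n x‖ₑ ^ 2 * W x) atTop ≤ liminf (fun n : ℕ => α * (eLpNorm G 2 volume
        + (C : ℝ≥0∞) * ENNReal.ofReal (((n : ℝ) + 1)⁻¹) * eLpNorm ψ 2 volume) ^ 2
        + β * ∫⁻ x, ‖ψ x‖ₑ ^ 2) atTop := liminf_le_liminf (Eventually.of_forall h5)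
    _ = _ := h6.liminf_eq

/-- Sobolev inequality for weakly differentiable functions -/
theorem exists_sobolev : ∃ K : ℝ≥0, ∀ {ψ : E3 → ℝ} {G : E3 → E3}, MemLp ψ 2 → MemLp G 2 →
    IsWeakGradient ψ G → eLpNorm ψ 6 volume ≤ K * eLpNorm G 2 volume := by
  obtain ⟨C, hC⟩ := exists_eLpNorm_fderiv_apx_le
  set K := eLpNormLESNormFDerivOfEqInnerConst (volume : Measure E3) 2
  refine ⟨K, fun {ψ G} hψ hG hw => ?_⟩
  have lψ := locInt_of_memLp (by norm_num) hψ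
  have hae := tendsto_apx lψ
  have h1 : eLpNorm ψ 6 volume ≤ liminf (fun n => eLpNorm (apx ψ n) 6 volume) atTop :=
    Lp.eLpNorm_lim_le_liminf_eLpNorm (fun n => (contDiff_apx lψ n).continuous.aestronglyMeasurable)
      ψ hae
  have hS : ∀ n, eLpNorm (apx ψ n) 6 volume ≤ K * eLpNorm (fderiv ℝ (apx ψ n)) 2 volume := by
    intro n
    have := eLpNorm_le_eLpNorm_fderiv_of_eq_inner (volume : Measure E3) (u := apx ψ n)
      ((contDiff_apx lψ n).of_le (by simp)) (hasCompactSupport_apx ψ n) (p := 2) (p' := 6)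
      (by norm_num) (by simp) (by simp; norm_num)
    exact_mod_cast this
  have h5 : ∀ n, eLpNorm (apx ψ n) 6 volume ≤
      K * (eLpNorm G 2 volume + (C : ℝ≥0∞) * ENNReal.ofReal (((n : ℝ) + 1)⁻¹) * eLpNorm ψ 2 volume) := by
    intro n
    refine (hS n).trans ?_
    gcongr
    exact hC hψ hG hw n
  have h6 : Tendsto (fun n : ℕ => (K : ℝ≥0∞) * (eLpNorm G 2 volume
        + (C : ℝ≥0∞) * ENNReal.ofReal (((n : ℝ) + 1)⁻¹) * eLpNorm ψ 2 volume)) atTop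
      (𝓝 (K * (eLpNorm G 2 volume))) := by
    apply ENNReal.Tendsto.const_mul _ (Or.inr ENNReal.coe_ne_top)
    have h7 : Tendsto (fun n : ℕ => (C : ℝ≥0∞) * ENNReal.ofReal (((n : ℝ) + 1)⁻¹)
        * eLpNorm ψ 2 volume) atTop (𝓝 ((C : ℝ≥0∞) * ENNReal.ofReal 0 * eLpNorm ψ 2 volume)) := by
      apply ENNReal.Tendsto.mul_const _ (Or.inr hψ.eLpNorm_ne_top)
      apply ENNReal.Tendsto.const_mul _ (Or.inr ENNReal.coe_ne_top)
      apply (ENNReal.continuous_ofReal.tendsto 0).comp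
      have : (fun n : ℕ => ((n : ℝ) + 1)⁻¹) = fun n : ℕ => 1 / ((n : ℝ) + 1) := by
        ext n; simp
      rw [this]
      exact tendsto_one_div_add_atTop_nhds_zero_nat
    simpa using (tendsto_const_nhds (x := eLpNorm G 2 volume)).add h7
  refine h1.trans ?_
  rw [← h6.liminf_eq]
  exact liminf_le_liminf (Eventually.of_forall h5)

end Pool.Agent.MP_a69704_mp
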