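import Pool.Agent.MP_a69704_mp.Defs

open MeasureTheory Set Filter Topology
open scoped ENNReal NNReal

noncomputable section

namespace Pool.Agent.MP_a69704_mp


/-! ### The regularised Coulomb field -/

/-- regularised distance -/
def rd (δ : ℝ) (R x : E3) : ℝ := √(‖x - R‖ ^ 2 + δ ^ 2)

lemma rd_pos {δ : ℝ} (hδ : 0 < δ) (R x : E3) : 0 < rd δ R x := by
  unfold rd; positivity

lemma rd_sq {δ : ℝ} (R x : E3) : rd δ R x ^ 2 = ‖x - R‖ ^ 2 + δ ^ 2 := by
  unfold rd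
  exact Real.sq_sqrt (by positivity)

lemma norm_le_rd {δ : ℝ} (R x : E3) : ‖x - R‖ ≤ rd δ R x := by
  unfold rd
  apply Real.le_sqrt_of_sq_le
  nlinarith [sq_nonneg δ]

lemma contDiff_normsq (R : E3) : ContDiff ℝ (⊤ : ℕ∞) (fun x : E3 => ‖x - R‖ ^ 2) :=
  (contDiff_id.sub contDiff_const).norm_sq ℝ

lemma contDiff_rd {δ : ℝ} (hδ : 0 < δ) (R : E3) : ContDiff ℝ (⊤ : ℕ∞) (rd δ R) := by
  unfold rd
  apply ContDiff.sqrt
  · exact (contDiff_normsq R).add contDiff_const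
  · intro x
    positivity

lemma hasFDerivAt_rd {δ : ℝ} (hδ : 0 < δ) (R x : E3) :
    HasFDerivAt (rd δ R) ((rd δ R x)⁻¹ • innerSL ℝ (x - R)) x := by
  have h1 : HasFDerivAt (fun x : E3 => ‖x - R‖ ^ 2 + δ ^ 2) (2 • (innerSL ℝ (x - R))) x := by
    have h := ((hasFDerivAt_id x).sub_const R).norm_sq
    have h2 := h.add_const (δ ^ 2)
    convert! h2 using 1
  have h3 := h1.sqrt (by positivity : ‖x - R‖ ^ 2 + δ ^ 2 ≠ 0)
  convert! h3 using 1
  unfold rd
  ext v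
  simp
  ring

/-- component of the regularised unit field -/
def Fc (δ : ℝ) (R : E3) (i : Fin 3) (x : E3) : ℝ := (x - R) i * (rd δ R x)⁻¹

lemma hasFDerivAt_Fc {δ : ℝ} (hδ : 0 < δ) (R : E3) (i : Fin 3) (x : E3) :
    HasFDerivAt (Fc δ R i) ((x - R) i • (-((rd δ R x) ^ 2)⁻¹ • ((rd δ R x)⁻¹ • innerSL ℝ (x - R)))
      + (rd δ R x)⁻¹ • (EuclideanSpace.proj i : E3 →L[ℝ] ℝ)) x := by
  have h1 : HasFDerivAt (fun x : E3 => (x - R) i) (EuclideanSpace.proj i : E3 →L[ℝ] ℝ) x := by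
    have h := ((EuclideanSpace.proj i : E3 →L[ℝ] ℝ).hasFDerivAt (x := x)).sub_const (R i)
    convert! h using 1
  have h2 : HasFDerivAt (fun x : E3 => (rd δ R x)⁻¹)
      (-((rd δ R x) ^ 2)⁻¹ • ((rd δ R x)⁻¹ • innerSL ℝ (x - R))) x := by
    have h := (hasDerivAt_inv (rd_pos hδ R x).ne').comp_hasFDerivAt x (hasFDerivAt_rd hδ R x)
    convert! h using 1
  exact h1.mul h2

lemma fderiv_Fc_single {δ : ℝ} (hδ : 0 < δ) (R : E3) (i : Fin 3) (x : E3) :
    fderiv ℝ (Fc δ R i) x (EuclideanSpace.single i 1)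
      = (rd δ R x)⁻¹ - ((x - R) i) ^ 2 * ((rd δ R x)⁻¹) ^ 3 := by
  rw [(hasFDerivAt_Fc hδ R i x).fderiv]
  have : inner ℝ (x - R) (EuclideanSpace.single i (1 : ℝ)) = (x - R) i := by
    simp [EuclideanSpace.inner_single_right]
  have hproj : (EuclideanSpace.proj i : E3 →L[ℝ] ℝ) (EuclideanSpace.single i 1) = 1 := by simp
  simp only [add_apply, smul_apply, innerSL_apply_apply, this, smul_eq_mul, hproj]
  have := (rd_pos hδ R x).ne'
  field_simp
  ring

lemma sum_fderiv_Fc {δ : ℝ} (hδ : 0 < δ) (R : E3) (x : E3) :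
    2 * (rd δ R x)⁻¹ ≤ ∑ i, fderiv ℝ (Fc δ R i) x (EuclideanSpace.single i 1) := by
  have h1 : ∑ i, fderiv ℝ (Fc δ R i) x (EuclideanSpace.single i 1)
      = 3 * (rd δ R x)⁻¹ - ‖x - R‖ ^ 2 * ((rd δ R x)⁻¹) ^ 3 := by
    simp_rw [fderiv_Fc_single hδ]
    rw [Finset.sum_sub_distrib, ← Finset.sum_mul, EuclideanSpace.norm_sq_eq]
    simp
  rw [h1]
  have h2 := rd_pos hδ R x
  have h3 : ‖x - R‖ ^ 2 * ((rd δ R x)⁻¹) ^ 3 ≤ (rd δ R x)⁻¹ := by
    have h4 : ‖x - R‖ ^ 2 ≤ rd δ R x ^ 2 := by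
      rw [rd_sq]; nlinarith [sq_nonneg δ]
    calc ‖x - R‖ ^ 2 * ((rd δ R x)⁻¹) ^ 3 ≤ rd δ R x ^ 2 * ((rd δ R x)⁻¹) ^ 3 := by
          gcongr
      _ = (rd δ R x)⁻¹ := by field_simp
  linarith

lemma contDiff_Fc {δ : ℝ} (hδ : 0 < δ) (R : E3) (i : Fin 3) :
    ContDiff ℝ (⊤ : ℕ∞) (Fc δ R i) := by
  unfold Fc
  apply ContDiff.mul
  · have : (fun x : E3 => (x - R) i) = fun x => (EuclideanSpace.proj i : E3 →L[ℝ] ℝ) x - R i := by
      ext x; simp
    rw [this]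
    exact (ContinuousLinearMap.contDiff _).sub contDiff_const
  · exact (contDiff_rd hδ R).inv (fun x => (rd_pos hδ R x).ne')

/-- integration by parts against the regularised field -/
lemma ibp_Fc {δ : ℝ} (hδ : 0 < δ) (R : E3) {u : E3 → ℝ} (hu : ContDiff ℝ (⊤ : ℕ∞) u)
    (hc : HasCompactSupport u) (i : Fin 3) :
    ∫ x, Fc δ R i x * fderiv ℝ (fun y => u y ^ 2) x (EuclideanSpace.single i 1)
      = -∫ x, fderiv ℝ (Fc δ R i) x (EuclideanSpace.single i 1) * u x ^ 2 := by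
  have hu2 : ContDiff ℝ (⊤ : ℕ∞) (fun y => u y ^ 2) := hu.pow 2
  have hc2 : HasCompactSupport (fun y => u y ^ 2) := by
    apply hc.comp_left (g := fun t : ℝ => t ^ 2)
    simp
  have hF := contDiff_Fc hδ R i
  have cF : Continuous (fun x => fderiv ℝ (Fc δ R i) x (EuclideanSpace.single i 1)) :=
    (hF.continuous_fderiv (by simp)).clm_apply continuous_const
  have cU : Continuous (fun x => fderiv ℝ (fun y => u y ^ 2) x (EuclideanSpace.single i 1)) :=
    (hu2.continuous_fderiv (by simp)).clm_apply continuous_const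
  apply integral_mul_fderiv_eq_neg_fderiv_mul_of_integrable
  · exact (cF.mul hu2.continuous).integrable_of_hasCompactSupport (hc2.mul_left)
  · refine (hF.continuous.mul cU).integrable_of_hasCompactSupport ?_
    exact (hc2.fderiv_apply ℝ (EuclideanSpace.single i 1)).mul_left
  · exact (hF.continuous.mul hu2.continuous).integrable_of_hasCompactSupport (hc2.mul_left)
  · exact fun x _ => (hF.differentiable (by simp)) x
  · exact fun x _ => (hu2.differentiable (by simp)) x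

lemma integrable_of_cc {f : E3 → ℝ} (hf : Continuous f) (hc : HasCompactSupport f) :
    Integrable f := hf.integrable_of_hasCompactSupport hc

/-- regularised Coulomb inequality for smooth compactly supported functions -/
lemma coulomb_reg {δ κ : ℝ} (hδ : 0 < δ) (hκ : 0 < κ) (R : E3) {u : E3 → ℝ}
    (hu : ContDiff ℝ (⊤ : ℕ∞) u) (hc : HasCompactSupport u) :
    2 * κ * ∫ x, u x ^ 2 * (rd δ R x)⁻¹ ≤ (∫ x, ‖fderiv ℝ u x‖ ^ 2) + κ ^ 2 * ∫ x, u x ^ 2 := by
  have hu2 : ContDiff ℝ (⊤ : ℕ∞) (fun y => u y ^ 2) := hu.pow 2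
  have hc2 : HasCompactSupport (fun y => u y ^ 2) := by
    apply hc.comp_left (g := fun t : ℝ => t ^ 2)
    simp
  have hDu : Continuous (fderiv ℝ u) := hu.continuous_fderiv (by simp)
  have hcDu : HasCompactSupport (fderiv ℝ u) := hc.fderiv ℝ
  have crd : Continuous (fun x => (rd δ R x)⁻¹) :=
    (contDiff_rd hδ R).continuous.inv₀ (fun x => (rd_pos hδ R x).ne')
  -- integrability
  have i1 : Integrable (fun x => u x ^ 2 * (rd δ R x)⁻¹) :=
    integrable_of_cc (hu2.continuous.mul crd) (hc2.mul_right)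
  have hcn : HasCompactSupport (fun x => ‖fderiv ℝ u x‖ ^ 2) :=
    hcDu.norm.comp_left (g := fun t : ℝ => t ^ 2) (by simp)
  have i2 : Integrable (fun x => ‖fderiv ℝ u x‖ ^ 2) := integrable_of_cc (hDu.norm.pow 2) hcn
  have i3 : Integrable (fun x => u x ^ 2) := integrable_of_cc hu2.continuous hc2
  -- the derivative of the square
  have hD2 : ∀ x v, fderiv ℝ (fun y => u y ^ 2) x v = 2 * u x * fderiv ℝ u x v := by
    intro x v
    have h := ((hu.differentiable (by simp)) x).hasFDerivAt.pow 2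
    rw [h.fderiv]
    simp
  -- expansion of the field in the basis
  have hexp : ∀ x, fderiv ℝ (fun y => u y ^ 2) x ((rd δ R x)⁻¹ • (x - R))
      = ∑ i, Fc δ R i x * fderiv ℝ (fun y => u y ^ 2) x (EuclideanSpace.single i 1) := by
    intro x
    have h : (rd δ R x)⁻¹ • (x - R) = ∑ i, Fc δ R i x • (EuclideanSpace.single i (1 : ℝ) : E3) := by
      ext j
      simp [Fc, Finset.sum_apply, Pi.single_apply, mul_comm]
    rw [h, map_sum]
    simp
  have i4 : ∀ i : Fin 3, Integrable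
      (fun x => Fc δ R i x * fderiv ℝ (fun y => u y ^ 2) x (EuclideanSpace.single i 1)) := by
    intro i
    have cU : Continuous (fun x => fderiv ℝ (fun y => u y ^ 2) x (EuclideanSpace.single i 1)) :=
      (hu2.continuous_fderiv (by simp)).clm_apply continuous_const
    refine integrable_of_cc ((contDiff_Fc hδ R i).continuous.mul cU) ?_
    exact (hc2.fderiv_apply ℝ (EuclideanSpace.single i 1)).mul_left
  have i5 : ∀ i : Fin 3, Integrable
      (fun x => fderiv ℝ (Fc δ R i) x (EuclideanSpace.single i 1) * u x ^ 2) := by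
    intro i
    have cF : Continuous (fun x => fderiv ℝ (Fc δ R i) x (EuclideanSpace.single i 1)) :=
      ((contDiff_Fc hδ R i).continuous_fderiv (by simp)).clm_apply continuous_const
    exact integrable_of_cc (cF.mul hu2.continuous) (hc2.mul_left)
  have hibp : ∫ x, fderiv ℝ (fun y => u y ^ 2) x ((rd δ R x)⁻¹ • (x - R))
      ≤ -(2 * ∫ x, u x ^ 2 * (rd δ R x)⁻¹) := by
    simp_rw [hexp]
    rw [integral_finsetSum _ (fun i _ => i4 i)]
    simp_rw [ibp_Fc hδ R hu hc]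
    rw [Finset.sum_neg_distrib, ← integral_finsetSum _ (fun i _ => i5 i), neg_le_neg_iff,
      ← integral_const_mul]
    apply integral_mono (i1.const_mul 2) (integrable_finsetSum _ (fun i _ => i5 i))
    intro x
    simp only
    rw [← Finset.sum_mul]
    have := sum_fderiv_Fc hδ R x
    nlinarith [sq_nonneg (u x)]
  have i6 : Integrable (fun x => fderiv ℝ (fun y => u y ^ 2) x ((rd δ R x)⁻¹ • (x - R))) := by
    simp_rw [hexp]
    exact integrable_finsetSum _ (fun i _ => i4 i)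
  -- the completed square
  have hpt : ∀ x, 0 ≤ ‖fderiv ℝ u x‖ ^ 2
      + κ * fderiv ℝ (fun y => u y ^ 2) x ((rd δ R x)⁻¹ • (x - R)) + κ ^ 2 * u x ^ 2 := by
    intro x
    rw [hD2]
    have hF : ‖(rd δ R x)⁻¹ • (x - R)‖ ≤ 1 := by
      rw [norm_smul, norm_inv, Real.norm_of_nonneg (rd_pos hδ R x).le]
      rw [inv_mul_le_iff₀ (rd_pos hδ R x), mul_one]
      exact norm_le_rd R x
    have h1 : |fderiv ℝ u x ((rd δ R x)⁻¹ • (x - R))| ≤ ‖fderiv ℝ u x‖ := by
      rw [← Real.norm_eq_abs]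
      calc _ ≤ ‖fderiv ℝ u x‖ * ‖(rd δ R x)⁻¹ • (x - R)‖ := ContinuousLinearMap.le_opNorm _ _
        _ ≤ ‖fderiv ℝ u x‖ * 1 := by gcongr
        _ = _ := mul_one _
    set d := fderiv ℝ u x ((rd δ R x)⁻¹ • (x - R))
    have h2 : d ^ 2 ≤ ‖fderiv ℝ u x‖ ^ 2 := by
      rw [← sq_abs d]
      exact pow_le_pow_left₀ (abs_nonneg d) h1 2
    nlinarith [sq_nonneg (d + κ * u x)]
  have hint : 0 ≤ ∫ x, (‖fderiv ℝ u x‖ ^ 2
      + κ * fderiv ℝ (fun y => u y ^ 2) x ((rd δ R x)⁻¹ • (x - R)) + κ ^ 2 * u x ^ 2) :=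
    integral_nonneg (fun x => hpt x)
  have e1 : ∫ x, (‖fderiv ℝ u x‖ ^ 2
      + κ * fderiv ℝ (fun y => u y ^ 2) x ((rd δ R x)⁻¹ • (x - R)) + κ ^ 2 * u x ^ 2)
      = (∫ x, (‖fderiv ℝ u x‖ ^ 2
      + κ * fderiv ℝ (fun y => u y ^ 2) x ((rd δ R x)⁻¹ • (x - R)))) + ∫ x, κ ^ 2 * u x ^ 2 :=
    integral_add (i2.add (i6.const_mul κ)) (i3.const_mul (κ ^ 2))
  have e2 : ∫ x, (‖fderiv ℝ u x‖ ^ 2
      + κ * fderiv ℝ (fun y => u y ^ 2) x ((rd δ R x)⁻¹ • (x - R)))
      = (∫ x, ‖fderiv ℝ u x‖ ^ 2)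
      + ∫ x, κ * fderiv ℝ (fun y => u y ^ 2) x ((rd δ R x)⁻¹ • (x - R)) :=
    integral_add i2 (i6.const_mul κ)
  rw [e1, e2, integral_const_mul, integral_const_mul] at hint
  nlinarith

end Pool.Agent.MP_a69704_mp
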