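import Pool.Agent.MP_a69704_mp.Approx
import Pool.Agent.MP_a69704_mp.Smooth

open MeasureTheory Set Filter Topology
open scoped ENNReal NNReal

noncomputable section

namespace Pool.Agent.MP_a69704_mp

lemma lintegral_enorm_sq {F : Type*} [NormedAddCommGroup F] {f : E3 → F} (hf : MemLp f 2) :
    ∫⁻ x, ‖f x‖ₑ ^ 2 = ENNReal.ofReal (∫ x, ‖f x‖ ^ 2) := by
  have hi : Integrable (fun x => ‖f x‖ ^ 2) := by
    have := hf.integrable_norm_pow (by norm_num)
    simpa using this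
  rw [ofReal_integral_eq_lintegral_ofReal hi (Eventually.of_forall fun x => by positivity)]
  apply lintegral_congr
  intro x
  rw [ENNReal.ofReal_pow (norm_nonneg _), ofReal_norm]

lemma integrable_norm_sq {F : Type*} [NormedAddCommGroup F] {f : E3 → F} (hf : MemLp f 2) :
    Integrable (fun x => ‖f x‖ ^ 2) := by
  have := hf.integrable_norm_pow (by norm_num)
  simpa using this

lemma memLp_of_cc {F : Type*} [NormedAddCommGroup F] {f : E3 → F} (hf : Continuous f)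
    (hc : HasCompactSupport f) (q : ℝ≥0∞) : MemLp f q :=
  hf.memLp_of_hasCompactSupport hc

/-- the inverse distance -/
def invd (R x : E3) : ℝ := ‖x - R‖⁻¹

lemma invd_nonneg (R x : E3) : 0 ≤ invd R x := by unfold invd; positivity

lemma measurable_invd (R : E3) : Measurable (invd R) := by
  unfold invd
  exact (measurable_id.sub_const R).norm.inv

/-- Coulomb inequality for smooth compactly supported functions -/
lemma coulomb_smooth {κ : ℝ} (hκ : 0 < κ) (R : E3) {u : E3 → ℝ}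
    (hu : ContDiff ℝ (⊤ : ℕ∞) u) (hc : HasCompactSupport u) :
    ∫⁻ x, ‖u x‖ₑ ^ 2 * ENNReal.ofReal (invd R x) ≤
      ENNReal.ofReal (1 / (2 * κ)) * (∫⁻ x, ‖fderiv ℝ u x‖ₑ ^ 2)
        + ENNReal.ofReal (κ / 2) * ∫⁻ x, ‖u x‖ₑ ^ 2 := by
  have hu2 : MemLp u 2 := memLp_of_cc hu.continuous hc 2
  have hD2 : MemLp (fderiv ℝ u) 2 := memLp_of_cc (hu.continuous_fderiv (by simp)) (hc.fderiv ℝ) 2
  rw [lintegral_enorm_sq hu2, lintegral_enorm_sq hD2, ← ENNReal.ofReal_mul (by positivity),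
    ← ENNReal.ofReal_mul (by positivity), ← ENNReal.ofReal_add (by positivity) (by positivity)]
  -- regularisation
  have hreg : ∀ n : ℕ, ∫⁻ x, ‖u x‖ₑ ^ 2 * ENNReal.ofReal ((rd (1 / ((n : ℝ) + 1)) R x)⁻¹) ≤
      ENNReal.ofReal (1 / (2 * κ) * (∫ x, ‖fderiv ℝ u x‖ ^ 2) + κ / 2 * ∫ x, ‖u x‖ ^ 2) := by
    intro n
    have hδ : (0 : ℝ) < 1 / ((n : ℝ) + 1) := by positivity
    have crd : Continuous (fun x => (rd (1 / ((n : ℝ) + 1)) R x)⁻¹) :=
      (contDiff_rd hδ R).continuous.inv₀ (fun x => (rd_pos hδ R x).ne')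
    have hc2 : HasCompactSupport (fun y => u y ^ 2) :=
      hc.comp_left (g := fun t : ℝ => t ^ 2) (by simp)
    have i1 : Integrable (fun x => u x ^ 2 * (rd (1 / ((n : ℝ) + 1)) R x)⁻¹) :=
      integrable_of_cc ((hu.continuous.pow 2).mul crd) (hc2.mul_right)
    have e1 : ∫⁻ x, ‖u x‖ₑ ^ 2 * ENNReal.ofReal ((rd (1 / ((n : ℝ) + 1)) R x)⁻¹)
        = ENNReal.ofReal (∫ x, u x ^ 2 * (rd (1 / ((n : ℝ) + 1)) R x)⁻¹) := by
      rw [ofReal_integral_eq_lintegral_ofReal i1 (Eventually.of_forall fun x => by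
        have := rd_pos hδ R x
        positivity)]
      apply lintegral_congr
      intro x
      rw [ENNReal.ofReal_mul (by positivity), Real.enorm_eq_ofReal_abs,
        ← ENNReal.ofReal_pow (abs_nonneg _), sq_abs]
    rw [e1]
    apply ENNReal.ofReal_le_ofReal
    have h := coulomb_reg hδ hκ R hu hc
    have e2 : ∫ x, ‖u x‖ ^ 2 = ∫ x, u x ^ 2 := by
      congr 1; ext x; rw [Real.norm_eq_abs, sq_abs]
    rw [e2]
    have e3 : ∫ x, u x ^ 2 * (rd (1 / ((n : ℝ) + 1)) R x)⁻¹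
        = 1 / (2 * κ) * (2 * κ * ∫ x, u x ^ 2 * (rd (1 / ((n : ℝ) + 1)) R x)⁻¹) := by
      field_simp
    rw [e3]
    calc _ ≤ 1 / (2 * κ) * ((∫ x, ‖fderiv ℝ u x‖ ^ 2) + κ ^ 2 * ∫ x, u x ^ 2) := by gcongr
      _ = _ := by field_simp
  have hlim : ∫⁻ x, ‖u x‖ₑ ^ 2 * ENNReal.ofReal (invd R x) ≤
      ∫⁻ x, liminf (fun n : ℕ => ‖u x‖ₑ ^ 2 * ENNReal.ofReal ((rd (1 / ((n : ℝ) + 1)) R x)⁻¹)) atTop := by
    apply lintegral_mono_ae
    have : ∀ᵐ x : E3, x ≠ R := by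
      simp [ae_iff, measure_singleton]
    filter_upwards [this] with x hx
    have hx' : ‖x - R‖ ≠ 0 := by simpa [sub_eq_zero] using hx
    have h3 : Tendsto (fun n : ℕ => ‖u x‖ₑ ^ 2 * ENNReal.ofReal ((rd (1 / ((n : ℝ) + 1)) R x)⁻¹)) atTop
        (𝓝 (‖u x‖ₑ ^ 2 * ENNReal.ofReal (invd R x))) := by
      apply ENNReal.Tendsto.const_mul _ (Or.inr (by simp))
      apply (ENNReal.continuous_ofReal.tendsto _).comp
      unfold invd
      apply Tendsto.inv₀ _ hx'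
      unfold rd
      have h4 : Tendsto (fun n : ℕ => ‖x - R‖ ^ 2 + (1 / ((n : ℝ) + 1)) ^ 2) atTop
          (𝓝 (‖x - R‖ ^ 2 + 0 ^ 2)) :=
        tendsto_const_nhds.add (tendsto_one_div_add_atTop_nhds_zero_nat.pow 2)
      have h5 := (Real.continuous_sqrt.tendsto _).comp h4
      have h6 : √(‖x - R‖ ^ 2 + 0 ^ 2) = ‖x - R‖ := by
        rw [zero_pow (by norm_num), add_zero, Real.sqrt_sq (norm_nonneg _)]
      rw [h6] at h5
      exact h5
    rw [h3.liminf_eq]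
  refine hlim.trans ((lintegral_liminf_le fun n => ?_).trans ?_)
  · have hδ : (0 : ℝ) < 1 / ((n : ℝ) + 1) := by positivity
    have crd : Continuous (fun x => (rd (1 / ((n : ℝ) + 1)) R x)⁻¹) :=
      (contDiff_rd hδ R).continuous.inv₀ (fun x => (rd_pos hδ R x).ne')
    exact (hu.continuous.enorm.measurable.pow_const 2).mul crd.measurable.ennreal_ofReal
  · calc liminf (fun n : ℕ => ∫⁻ x, ‖u x‖ₑ ^ 2 * ENNReal.ofReal ((rd (1 / ((n : ℝ) + 1)) R x)⁻¹)) atTop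
        ≤ liminf (fun _ : ℕ => ENNReal.ofReal (1 / (2 * κ) * (∫ x, ‖fderiv ℝ u x‖ ^ 2)
          + κ / 2 * ∫ x, ‖u x‖ ^ 2)) atTop := liminf_le_liminf (Eventually.of_forall hreg)
      _ = _ := by simp

/-- Coulomb inequality for weakly differentiable functions (Lebesgue form) -/
lemma coulomb_weak {κ : ℝ} (hκ : 0 < κ) (R : E3) {ψ : E3 → ℝ} {G : E3 → E3}
    (hψ : MemLp ψ 2) (hG : MemLp G 2) (hw : IsWeakGradient ψ G) :
    ∫⁻ x, ‖ψ x‖ₑ ^ 2 * ENNReal.ofReal (invd R x) ≤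
      ENNReal.ofReal (1 / (2 * κ)) * (∫⁻ x, ‖G x‖ₑ ^ 2)
        + ENNReal.ofReal (κ / 2) * ∫⁻ x, ‖ψ x‖ₑ ^ 2 :=
  transfer (measurable_invd R).ennreal_ofReal (by simp) (by simp)
    (fun u hu hc => coulomb_smooth hκ R hu hc) hψ hG hw

lemma integrable_sq_invd (R : E3) {ψ : E3 → ℝ} {G : E3 → E3}
    (hψ : MemLp ψ 2) (hG : MemLp G 2) (hw : IsWeakGradient ψ G) :
    Integrable (fun x => ψ x ^ 2 * invd R x) := by
  have h := coulomb_weak one_pos R hψ hG hw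
  refine ⟨(hψ.1.pow 2).mul (measurable_invd R).aestronglyMeasurable, ?_⟩
  unfold HasFiniteIntegral
  have e : ∀ x, ‖ψ x ^ 2 * invd R x‖ₑ = ‖ψ x‖ₑ ^ 2 * ENNReal.ofReal (invd R x) := by
    intro x
    rw [enorm_mul, enorm_pow, Real.enorm_eq_ofReal (invd_nonneg R x)]
  simp_rw [e]
  refine h.trans_lt ?_
  rw [lintegral_enorm_sq hψ, lintegral_enorm_sq hG]
  simp [ENNReal.mul_lt_top_iff]

lemma coulomb_weak_real {κ : ℝ} (hκ : 0 < κ) (R : E3) {ψ : E3 → ℝ} {G : E3 → E3}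
    (hψ : MemLp ψ 2) (hG : MemLp G 2) (hw : IsWeakGradient ψ G) :
    ∫ x, ψ x ^ 2 * invd R x ≤ 1 / (2 * κ) * (∫ x, ‖G x‖ ^ 2) + κ / 2 * ∫ x, ψ x ^ 2 := by
  have h := coulomb_weak hκ R hψ hG hw
  have hi := integrable_sq_invd R hψ hG hw
  have e : ∫⁻ x, ‖ψ x‖ₑ ^ 2 * ENNReal.ofReal (invd R x)
      = ENNReal.ofReal (∫ x, ψ x ^ 2 * invd R x) := by
    rw [ofReal_integral_eq_lintegral_ofReal hi (Eventually.of_forall fun x => by
        have := invd_nonneg R x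
        positivity)]
    apply lintegral_congr
    intro x
    rw [ENNReal.ofReal_mul (by positivity), Real.enorm_eq_ofReal_abs,
      ← ENNReal.ofReal_pow (abs_nonneg _), sq_abs]
  rw [e, lintegral_enorm_sq hψ, lintegral_enorm_sq hG, ← ENNReal.ofReal_mul (by positivity),
    ← ENNReal.ofReal_mul (by positivity), ← ENNReal.ofReal_add (by positivity) (by positivity),
    ENNReal.ofReal_le_ofReal_iff (by positivity)] at h
  have e2 : ∫ x, ‖ψ x‖ ^ 2 = ∫ x, ψ x ^ 2 := by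
    congr 1; ext x; rw [Real.norm_eq_abs, sq_abs]
  rwa [e2] at h

end Pool.Agent.MP_a69704_mp
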