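import Mathlib

open MeasureTheory Set Filter Topology

noncomputable section

namespace Pool.Agent.MP_a69704_mp

/-- three-dimensional Euclidean space -/
abbrev E3 := EuclideanSpace ℝ (Fin 3)

/-- The data of a TFDW functional: the exponent `p > 4/3`, the constants `A, γ, C > 0` and
`k ≥ 1` nuclei at distinct points `R j` with charges `z j > 0`. -/
structure Params where
  p : ℝ
  A : ℝ
  γ : ℝ
  C : ℝ
  k : ℕ
  R : Fin k → E3
  z : Fin k → ℝ
  p_gt : 4 / 3 < p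
  A_pos : 0 < A
  γ_pos : 0 < γ
  C_pos : 0 < C
  k_pos : 1 ≤ k
  R_inj : Function.Injective R
  z_pos : ∀ j, 0 < z j

/-- the Coulomb potential `V(x) = ∑ z_j / |x - R_j|` of the nuclei -/
def Params.V (S : Params) (x : E3) : ℝ := ∑ j, S.z j / ‖x - S.R j‖

/-- the repulsion energy `U = ∑_{i<j} z_i z_j / |R_i - R_j|` of the nuclei -/
def Params.U (S : Params) : ℝ :=
  ∑ i, ∑ j, if i < j then S.z i * S.z j / ‖S.R i - S.R j‖ else 0

/-- the function `J(t) = (γ/p) t^p - (3C/4) t^(4/3)` -/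
def Params.J (S : Params) (t : ℝ) : ℝ :=
  S.γ / S.p * t ^ S.p - 3 * S.C / 4 * t ^ (4 / 3 : ℝ)

/-- the Coulomb energy `D(f,g)` -/
def coulombD (f g : E3 → ℝ) : ℝ := 1 / 2 * ∫ x, ∫ y, f x * g y / ‖x - y‖

/-- `G` is the distributional gradient of `ψ` on `ℝ³`. -/
def IsWeakGradient (ψ : E3 → ℝ) (G : E3 → E3) : Prop :=
  ∀ φ : E3 → ℝ, ContDiff ℝ (⊤ : ℕ∞) φ → HasCompactSupport φ →
    ∀ v : E3, ∫ x, ψ x * fderiv ℝ φ x v = -∫ x, inner ℝ (G x) v * φ x

/-- Admissible densities `ρ`, together with the gradient `G` of `ψ = ρ^{1/2}`: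
`ρ ≥ 0`, `G = ∇ψ ∈ L²`, `ψ ∈ L⁶`, `ρ ∈ L^p`. -/
structure Params.Admissible (S : Params) (ρ : E3 → ℝ) (G : E3 → E3) : Prop where
  nonneg : ∀ x, 0 ≤ ρ x
  grad : IsWeakGradient (fun x => √(ρ x)) G
  grad_L2 : MemLp G 2
  psi_L6 : MemLp (fun x => √(ρ x)) 6
  rho_Lp : MemLp ρ (ENNReal.ofReal S.p)

/-- the TFDW functional; `G` is the gradient of `ρ^{1/2}` -/
def Params.energy (S : Params) (ρ : E3 → ℝ) (G : E3 → E3) : ℝ :=
  S.A * (∫ x, ‖G x‖ ^ 2) + (∫ x, S.J (ρ x)) - (∫ x, S.V x * ρ x) + coulombD ρ ρ + S.U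

/-- the set of energies of admissible densities of mass `lam` -/
def Params.energies (S : Params) (lam : ℝ) : Set ℝ :=
  {e | ∃ ρ G, S.Admissible ρ G ∧ Integrable ρ ∧ ∫ x, ρ x = lam ∧ e = S.energy ρ G}

/-- the TFDW ground state energy -/
def Params.E (S : Params) (lam : ℝ) : ℝ := sInf (S.energies lam)

end Pool.Agent.MP_a69704_mp
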