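import Pool.Agent.MP_a69704_mp.Near3

open MeasureTheory Set Filter Topology
open scoped ENNReal NNReal

noncomputable section

namespace Pool.Agent.MP_a69704_mp

variable (S : Params)

lemma coulombD_nonneg {f : E3 → ℝ} (hf : ∀ x, 0 ≤ f x) : 0 ≤ coulombD f f := by
  unfold coulombD
  apply mul_nonneg (by norm_num)
  apply integral_nonneg
  intro x
  apply integral_nonneg
  intro y
  exact div_nonneg (mul_nonneg (hf x) (hf y)) (norm_nonneg _)

section
variable {S}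
variable {ρ : E3 → ℝ} {G : E3 → E3}

lemma Params.Admissible.psi_sq (h : S.Admissible ρ G) (x : E3) : √(ρ x) ^ 2 = ρ x :=
  Real.sq_sqrt (h.nonneg x)

lemma Params.Admissible.psi_six (h : S.Admissible ρ G) (x : E3) : √(ρ x) ^ 6 = ρ x ^ 3 := by
  rw [show (6 : ℕ) = 2 * 3 from rfl, pow_mul, h.psi_sq]

lemma Params.Admissible.psi_L2 (h : S.Admissible ρ G) (hi : Integrable ρ) :
    MemLp (fun x => √(ρ x)) 2 := by
  rw [memLp_two_iff_integrable_sq (Real.continuous_sqrt.comp_aestronglyMeasurable hi.1)]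
  exact hi.congr (Eventually.of_forall fun x => (h.psi_sq x).symm)

lemma rpow43_le {t : ℝ} (ht : 0 ≤ t) : t ^ (4 / 3 : ℝ) ≤ t + t ^ 3 := by
  rcases ht.eq_or_lt with h | h
  · rw [← h, Real.zero_rpow (by norm_num)]
    simp
  · rcases le_total t 1 with h1 | h1
    · have : t ^ (4 / 3 : ℝ) ≤ t ^ (1 : ℝ) := Real.rpow_le_rpow_of_exponent_ge h h1 (by norm_num)
      rw [Real.rpow_one] at this
      have : 0 ≤ t ^ 3 := by positivity
      linarith
    · have : t ^ (4 / 3 : ℝ) ≤ t ^ ((3 : ℕ) : ℝ) :=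
        Real.rpow_le_rpow_of_exponent_le h1 (by norm_num)
      rw [Real.rpow_natCast] at this
      linarith

lemma integrable_cube (h : S.Admissible ρ G) (hi : Integrable ρ) :
    Integrable (fun x => ρ x ^ 3) := by
  have := integrable_six (h.psi_L2 hi) h.grad_L2 h.grad
  exact this.congr (Eventually.of_forall fun x => h.psi_six x)

lemma integrable_43 (h : S.Admissible ρ G) (hi : Integrable ρ) :
    Integrable (fun x => ρ x ^ (4 / 3 : ℝ)) := by
  apply (hi.add (integrable_cube h hi)).mono'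
  · exact (Real.continuous_rpow_const (by norm_num)).comp_aestronglyMeasurable hi.1
  · apply Eventually.of_forall
    intro x
    rw [Real.norm_of_nonneg (Real.rpow_nonneg (h.nonneg x) _)]
    exact rpow43_le (h.nonneg x)

lemma p_pos (S : Params) : 0 < S.p := by
  have := S.p_gt
  linarith

lemma integrable_rpow_p (h : S.Admissible ρ G) : Integrable (fun x => ρ x ^ S.p) := by
  have hp := p_pos S
  have := h.rho_Lp.integrable_norm_rpow (by simp [hp]) (by simp)
  rw [ENNReal.toReal_ofReal hp.le] at this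
  exact this.congr (Eventually.of_forall fun x => by
    change ‖ρ x‖ ^ S.p = ρ x ^ S.p
    rw [Real.norm_of_nonneg (h.nonneg x)])

lemma integral_J (h : S.Admissible ρ G) (hi : Integrable ρ) :
    ∫ x, S.J (ρ x) = S.γ / S.p * (∫ x, ρ x ^ S.p) - 3 * S.C / 4 * ∫ x, ρ x ^ (4 / 3 : ℝ) := by
  unfold Params.J
  rw [integral_sub ((integrable_rpow_p h).const_mul _) ((integrable_43 h hi).const_mul _),
    integral_const_mul, integral_const_mul]

/-- the exchange term is controlled by mass and kinetic energy -/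
lemma X_le (h : S.Admissible ρ G) (hi : Integrable ρ) :
    ∫ x, ρ x ^ (4 / 3 : ℝ) ≤ (∫ x, ρ x) ^ (5 / 6 : ℝ) * (KS ^ (1 / 6 : ℝ) * √(∫ x, ‖G x‖ ^ 2)) := by
  have hpq : (6 / 5 : ℝ).HolderConjugate 6 := by
    rw [Real.holderConjugate_iff]; norm_num
  have h0 := h.nonneg
  have hf : MemLp (fun x => ρ x ^ (5 / 6 : ℝ)) (ENNReal.ofReal (6 / 5)) := by
    rw [← integrable_norm_rpow_iff ((Real.continuous_rpow_const
      (by norm_num)).comp_aestronglyMeasurable hi.1) (by simp) (by simp)]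
    rw [ENNReal.toReal_ofReal (by norm_num)]
    apply hi.congr
    apply Eventually.of_forall
    intro x
    change ρ x = ‖ρ x ^ (5 / 6 : ℝ)‖ ^ (6 / 5 : ℝ)
    rw [Real.norm_of_nonneg (Real.rpow_nonneg (h0 x) _), ← Real.rpow_mul (h0 x)]
    norm_num
  have hg : MemLp (fun x => ρ x ^ (1 / 2 : ℝ)) (ENNReal.ofReal 6) := by
    rw [← integrable_norm_rpow_iff ((Real.continuous_rpow_const
      (by norm_num)).comp_aestronglyMeasurable hi.1) (by simp) (by simp)]
    rw [ENNReal.toReal_ofReal (by norm_num)]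
    apply (integrable_cube h hi).congr
    apply Eventually.of_forall
    intro x
    change ρ x ^ 3 = ‖ρ x ^ (1 / 2 : ℝ)‖ ^ (6 : ℝ)
    rw [Real.norm_of_nonneg (Real.rpow_nonneg (h0 x) _), ← Real.rpow_mul (h0 x),
      ← Real.rpow_natCast]
    norm_num
  have key := integral_mul_le_Lp_mul_Lq_of_nonneg hpq
    (Eventually.of_forall fun x => Real.rpow_nonneg (h0 x) _)
    (Eventually.of_forall fun x => Real.rpow_nonneg (h0 x) _) hf hg
  have e1 : ∀ x, ρ x ^ (5 / 6 : ℝ) * ρ x ^ (1 / 2 : ℝ) = ρ x ^ (4 / 3 : ℝ) := by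
    intro x
    rw [← Real.rpow_add_of_nonneg (h0 x) (by norm_num) (by norm_num)]
    norm_num
  have e2 : ∀ x, (ρ x ^ (5 / 6 : ℝ)) ^ (6 / 5 : ℝ) = ρ x := by
    intro x
    rw [← Real.rpow_mul (h0 x)]
    norm_num
  have e3 : ∀ x, (ρ x ^ (1 / 2 : ℝ)) ^ (6 : ℝ) = √(ρ x) ^ 6 := by
    intro x
    rw [Real.sqrt_eq_rpow, ← Real.rpow_natCast]
    norm_num
  simp_rw [e1, e2, e3] at key
  have hs := sobolev_six (h.psi_L2 hi) h.grad_L2 h.grad
  have hK := KS_nonneg
  have hG0 : 0 ≤ ∫ x, ‖G x‖ ^ 2 := by positivity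
  have h6 : (∫ x, √(ρ x) ^ 6) ^ (1 / 6 : ℝ) ≤ KS ^ (1 / 6 : ℝ) * √(∫ x, ‖G x‖ ^ 2) := by
    calc (∫ x, √(ρ x) ^ 6) ^ (1 / 6 : ℝ) ≤ (KS * (∫ x, ‖G x‖ ^ 2) ^ 3) ^ (1 / 6 : ℝ) := by
          apply Real.rpow_le_rpow _ hs (by norm_num)
          apply integral_nonneg
          intro x
          positivity
      _ = KS ^ (1 / 6 : ℝ) * √(∫ x, ‖G x‖ ^ 2) := by
          rw [Real.mul_rpow hK (by positivity), Real.sqrt_eq_rpow, ← Real.rpow_natCast,
            ← Real.rpow_mul hG0]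
          norm_num
  refine key.trans ?_
  have e4 : (1 : ℝ) / (6 / 5) = 5 / 6 := by norm_num
  rw [e4]
  apply mul_le_mul_of_nonneg_left h6
  apply Real.rpow_nonneg
  exact integral_nonneg h0

/-- the constant in the exchange estimate -/
def Params.cX (S : Params) : ℝ := 3 * S.C / 4 * KS ^ (1 / 6 : ℝ)

/-- lower bound on the energy -/
theorem energy_lower (h : S.Admissible ρ G) (hi : Integrable ρ) {ε : ℝ} (hε : 0 < ε)
    (hε2 : ε ≤ 1 / 2) :
    S.U - S.a * (∫ x, ρ x) - 2 * ε * S.K0 * (∫ x, ρ x)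
      - S.cX ^ 2 * (∫ x, ρ x) ^ (5 / 3 : ℝ) / (4 * ε * S.A) ≤ S.energy ρ G := by
  have hA := S.A_pos
  have hγ := S.γ_pos
  have hC := S.C_pos
  have hp := p_pos S
  have hK0 := S.K0_pos
  have ha := a_nonneg S
  have h2 := h.psi_L2 hi
  set lam := ∫ x, ρ x with hlam
  have hlam0 : 0 ≤ lam := integral_nonneg h.nonneg
  set K := ∫ x, ‖G x‖ ^ 2 with hK
  have hK0' : 0 ≤ K := by positivity
  have hN1 := a_spec_weak S h2 h.grad_L2 h.grad
  have hN2 := V_form_bound S h2 h.grad_L2 h.grad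
  simp_rw [h.psi_sq] at hN1 hN2
  rw [← hlam, ← hK] at hN1 hN2
  set N := ∫ x, S.V x * ρ x with hN
  have hX := X_le h hi
  rw [← hlam, ← hK] at hX
  set X := ∫ x, ρ x ^ (4 / 3 : ℝ) with hXdef
  have hP : 0 ≤ ∫ x, ρ x ^ S.p := integral_nonneg fun x => Real.rpow_nonneg (h.nonneg x) _
  have hD := coulombD_nonneg h.nonneg
  have hE : S.A * K - N - 3 * S.C / 4 * X + S.U ≤ S.energy ρ G := by
    unfold Params.energy
    rw [integral_J h hi, ← hK, ← hN, ← hXdef]
    have : 0 ≤ S.γ / S.p * ∫ x, ρ x ^ S.p := by positivity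
    linarith
  -- exchange
  have hKS := KS_nonneg
  have hX2 : 3 * S.C / 4 * X ≤ ε * S.A * K + S.cX ^ 2 * lam ^ (5 / 3 : ℝ) / (4 * ε * S.A) := by
    have h3 : 3 * S.C / 4 * X ≤ S.cX * lam ^ (5 / 6 : ℝ) * √K := by
      unfold Params.cX
      calc 3 * S.C / 4 * X ≤ 3 * S.C / 4 * (lam ^ (5 / 6 : ℝ) * (KS ^ (1 / 6 : ℝ) * √K)) := by
            gcongr
        _ = _ := by ring
    have h4 : lam ^ (5 / 3 : ℝ) = (lam ^ (5 / 6 : ℝ)) ^ 2 := by
      rw [← Real.rpow_natCast, ← Real.rpow_mul hlam0]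
      norm_num
    rw [h4]
    set y := S.cX * lam ^ (5 / 6 : ℝ)
    have h5 : S.cX ^ 2 * (lam ^ (5 / 6 : ℝ)) ^ 2 = y ^ 2 := by ring
    rw [h5]
    have h6 : √K ^ 2 = K := Real.sq_sqrt hK0'
    have h7 : ε * S.A * K + y ^ 2 / (4 * ε * S.A) - y * √K
        = (2 * ε * S.A * √K - y) ^ 2 / (4 * ε * S.A) := by
      have : K = √K ^ 2 := h6.symm
      rw [this]
      rw [Real.sqrt_sq (Real.sqrt_nonneg K)]
      field_simp
      ring
    have h8 : 0 ≤ (2 * ε * S.A * √K - y) ^ 2 / (4 * ε * S.A) := by positivity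
    linarith
  have h9 : -(1 - 2 * ε) * (S.a * lam) ≤ (1 - 2 * ε) * (S.A * K - N) := by
    have : 0 ≤ 1 - 2 * ε := by linarith
    nlinarith
  have h10 : 2 * ε * (S.A / 2 * K - S.K0 * lam) ≤ 2 * ε * (S.A * K - N) := by
    apply mul_le_mul_of_nonneg_left _ (by positivity)
    linarith
  have h11 : 0 ≤ 2 * ε * (S.a * lam) := by positivity
  nlinarith

end

end Pool.Agent.MP_a69704_mp
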