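import Pool.Agent.MP_a69704_mp.Pot

open MeasureTheory Set Filter Topology
open scoped ENNReal NNReal

noncomputable section

namespace Pool.Agent.MP_a69704_mp

variable (S : Params)

/-! ### Positivity of `a` -/

lemma scaled_integral (f : E3 → ℝ) (R : E3) {s : ℝ} (hs : 0 < s) :
    ∫ x, f (s • (x - R)) = (s ^ 3)⁻¹ * ∫ x, f x := by
  have h1 : ∫ x, f (s • (x - R)) = ∫ x, f (s • x) :=
    integral_sub_right_eq_self (fun x => f (s • x)) R
  rw [h1, Measure.integral_comp_smul]
  simp [abs_of_pos hs]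

/-- scaled bump around `R` -/
def sbump (R : E3) (s : ℝ) (x : E3) : ℝ := cut (s • (x - R))

lemma isTest_sbump (R : E3) {s : ℝ} (hs : 0 < s) : IsTest (sbump R s) := by
  constructor
  · exact cut.contDiff.comp ((contDiff_id.sub contDiff_const).const_smul s)
  · have h : (sbump R s) = (cut : E3 → ℝ) ∘
        ((Homeomorph.subRight R).trans (Homeomorph.smulOfNeZero s hs.ne')) := by
      ext x; rfl
    rw [h]
    exact cut.hasCompactSupport.comp_homeomorph _

lemma norm_fderiv_sbump (R : E3) {s : ℝ} (hs : 0 < s) (x : E3) :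
    ‖fderiv ℝ (sbump R s) x‖ = s * ‖fderiv ℝ cut (s • (x - R))‖ := by
  have h1 : HasFDerivAt (cut : E3 → ℝ) (fderiv ℝ cut (s • (x - R))) (s • (x - R)) :=
    (((cut.contDiff (n := 1)).differentiable (by simp)) _).hasFDerivAt
  have h2 : HasFDerivAt (fun x : E3 => s • (x - R)) (s • ContinuousLinearMap.id ℝ E3) x := by
    exact ((hasFDerivAt_id (𝕜 := ℝ) x).sub_const R).const_smul s
  have h3 : HasFDerivAt (sbump R s)
      ((fderiv ℝ cut (s • (x - R))).comp (s • ContinuousLinearMap.id ℝ E3)) x := h1.comp x h2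
  have h4 : (fderiv ℝ cut (s • (x - R))).comp (s • ContinuousLinearMap.id ℝ E3)
      = s • fderiv ℝ cut (s • (x - R)) := by
    ext v
    simp
  rw [h3.fderiv, h4, norm_smul, Real.norm_of_nonneg hs.le]

lemma integrable_cut_sq : Integrable (fun x : E3 => cut x ^ 2) := by
  have h : Continuous (fun x : E3 => cut x ^ 2) := cut.continuous.pow 2
  have hc : HasCompactSupport (fun x : E3 => cut x ^ 2) :=
    cut.hasCompactSupport.comp_left (g := fun t : ℝ => t ^ 2) (by simp)
  exact h.integrable_of_hasCompactSupport hc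

lemma cut_mass_pos : 0 < ∫ x : E3, cut x ^ 2 := by
  have h : Continuous (fun x : E3 => cut x ^ 2) := cut.continuous.pow 2
  have hc : HasCompactSupport (fun x : E3 => cut x ^ 2) :=
    cut.hasCompactSupport.comp_left (g := fun t : ℝ => t ^ 2) (by simp)
  apply h.integral_pos_of_hasCompactSupport_nonneg_nonzero hc (fun x => by positivity) (x := 0)
  have : cut (0 : E3) = 1 := cut.one_of_mem_closedBall (by simp [cut.rIn_pos.le])
  rw [this]
  norm_num

lemma exists_neg : ∃ u, IsTest u ∧
    S.A * (∫ x, ‖fderiv ℝ u x‖ ^ 2) < ∫ x, S.V x * u x ^ 2 := by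
  set j0 : Fin S.k := ⟨0, S.k_pos⟩
  set R := S.R j0
  have hz := S.z_pos j0
  have hA := S.A_pos
  set m := ∫ x : E3, cut x ^ 2
  have hm : 0 < m := cut_mass_pos
  set κ := ∫ x : E3, ‖fderiv ℝ cut x‖ ^ 2
  have hκ : 0 ≤ κ := by positivity
  obtain ⟨s, hs, hs2⟩ : ∃ s : ℝ, 0 < s ∧ S.A * κ * s < S.z j0 / 2 * m := by
    refine ⟨(S.z j0 / 2 * m) / (S.A * κ + 1) , by positivity, ?_⟩
    rw [mul_div_assoc', div_lt_iff₀ (by positivity)]
    nlinarith [mul_pos hz hm]
  refine ⟨sbump R s, isTest_sbump R hs, ?_⟩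
  have e1 : ∫ x, ‖fderiv ℝ (sbump R s) x‖ ^ 2 = s ^ 2 * ((s ^ 3)⁻¹ * κ) := by
    simp_rw [norm_fderiv_sbump R hs, mul_pow]
    rw [integral_const_mul, scaled_integral (fun y => ‖fderiv ℝ cut y‖ ^ 2) R hs]
  have e2 : ∫ x, sbump R s x ^ 2 = (s ^ 3)⁻¹ * m := by
    unfold sbump
    rw [scaled_integral (fun y => cut y ^ 2) R hs]
  have ht := isTest_sbump R hs
  have e3 : S.z j0 * (s / 2) * ∫ x, sbump R s x ^ 2 ≤ ∫ x, S.V x * sbump R s x ^ 2 := by
    rw [← integral_const_mul]
    apply integral_mono_ae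
    · have : Integrable (fun x => sbump R s x ^ 2) := (ht.memLp 2).integrable_sq
      exact this.const_mul _
    · exact integrable_V_sq S (ht.memLp 2) (ht.memLp_grad 2) (isWeakGradient_grad ht)
    · have : ∀ᵐ x : E3, x ≠ R := by
        simp [ae_iff, measure_singleton]
      filter_upwards [this] with x hx
      by_cases h0 : sbump R s x = 0
      · simp [h0]
      · have hx' : 0 < ‖x - R‖ := by
          rw [norm_pos_iff]
          exact sub_ne_zero.2 hx
        have h1 : s • (x - R) ∈ Metric.ball (0 : E3) cut.rOut := by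
          rw [← cut.support_eq]
          exact h0
        have h2 : cut.rOut = 2 := rfl
        rw [mem_ball_zero_iff, norm_smul, Real.norm_of_nonneg hs.le, h2] at h1
        have h3 : s / 2 ≤ invd R x := by
          unfold invd
          rw [le_inv_comm₀ (by positivity) hx', inv_div, le_div_iff₀ hs]
          linarith
        have h4 : S.z j0 * (s / 2) ≤ S.V x := by
          rw [S.V_eq]
          calc S.z j0 * (s / 2) ≤ S.z j0 * invd (S.R j0) x := by gcongr
            _ ≤ _ := Finset.single_le_sum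
              (f := fun j => S.z j * invd (S.R j) x)
              (fun j _ => mul_nonneg (S.z_pos j).le (invd_nonneg _ _)) (Finset.mem_univ j0)
        exact mul_le_mul_of_nonneg_right h4 (by positivity)
  rw [e2] at e3
  rw [e1]
  refine lt_of_lt_of_le ?_ e3
  have h5 : S.A * (s ^ 2 * ((s ^ 3)⁻¹ * κ)) = (S.A * κ * s) * (s ^ 2)⁻¹ := by
    field_simp
  have h6 : S.z j0 * (s / 2) * ((s ^ 3)⁻¹ * m) = (S.z j0 / 2 * m) * (s ^ 2)⁻¹ := by
    field_simp
  rw [h5, h6]
  exact mul_lt_mul_of_pos_right hs2 (by positivity)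

lemma a_pos : 0 < S.a := by
  rcases (a_nonneg S).eq_or_lt with h | h
  · obtain ⟨u, hu, hlt⟩ := exists_neg S
    have := a_spec S u hu
    rw [← h] at this
    linarith
  · exact h

/-! ### Local integrability of the squared inverse distance -/

/-- truncated squared inverse distance -/
def qb (r : ℝ) (R x : E3) : ℝ := (Metric.ball R r).indicator (fun x => invd R x ^ 2) x

lemma qb_nonneg (r : ℝ) (R x : E3) : 0 ≤ qb r R x :=
  indicator_nonneg (fun x _ => by positivity) x

lemma integrable_qb (r : ℝ) (R : E3) : Integrable (qb r R) := by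
  have h0 : Integrable (fun x : E3 => (Metric.ball (0 : E3) r).indicator (fun x => (‖x‖⁻¹) ^ 2) x) := by
    rw [integrable_indicator_iff Metric.isOpen_ball.measurableSet]
    rw [integrableOn_fun_norm_addHaar (volume : Measure E3) (f := fun t : ℝ => (t⁻¹) ^ 2)]
    have h1 : IntegrableOn (fun _ : ℝ => (1 : ℝ)) (Ioo 0 r) :=
      (continuous_const.integrableOn_Icc (a := 0) (b := r)).mono_set Ioo_subset_Icc_self
    apply h1.congr_fun _ measurableSet_Ioo
    intro y hy
    have : y ≠ 0 := hy.1.ne'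
    simp
    field_simp
  have h2 := h0.comp_sub_right R
  apply h2.congr
  apply Eventually.of_forall
  intro x
  unfold qb invd
  simp only [indicator]
  congr 1
  simp [dist_eq_norm]

/-- pointwise bound for the potential, tail part -/
lemma pt_bound1 {r η w : ℝ} (hr : 0 < r) (hη : 0 < η) (R x : E3) :
    w ^ 2 * invd R x ≤ w ^ 2 / r + η / 2 * qb r R x + 1 / (2 * η) * w ^ 4 := by
  have hq := qb_nonneg r R x
  by_cases hx : x ∈ Metric.ball R r
  · have e : qb r R x = invd R x ^ 2 := by
      unfold qb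
      rw [indicator_of_mem hx]
    rw [e]
    have h1 : 0 ≤ w ^ 2 / r := by positivity
    have h2 : w ^ 2 * invd R x ≤ η / 2 * invd R x ^ 2 + 1 / (2 * η) * w ^ 4 := by
      have : η / 2 * invd R x ^ 2 + 1 / (2 * η) * w ^ 4 - w ^ 2 * invd R x
          = 1 / (2 * η) * (η * invd R x - w ^ 2) ^ 2 := by
        field_simp
        ring
      have h3 : 0 ≤ 1 / (2 * η) * (η * invd R x - w ^ 2) ^ 2 := by positivity
      linarith
    linarith
  · have h1 : invd R x ≤ 1 / r := by
      unfold invd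
      rw [Metric.mem_ball, not_lt, dist_eq_norm] at hx
      rw [one_div]
      gcongr
    have h2 : w ^ 2 * invd R x ≤ w ^ 2 / r := by
      rw [div_eq_mul_one_div]
      exact mul_le_mul_of_nonneg_left h1 (by positivity)
    have h3 : 0 ≤ η / 2 * qb r R x := by positivity
    have h4 : 0 ≤ 1 / (2 * η) * w ^ 4 := by positivity
    linarith

/-- pointwise bound for the cubic potential term -/
lemma pt_bound3 (u : ℝ) (R x : E3) :
    |u| ^ 3 * invd R x ≤ u ^ 2 + 3 / 2 * u ^ 6 + 1 / 2 * qb 1 R x := by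
  have hq := qb_nonneg 1 R x
  have hcube : |u| ^ 3 ≤ u ^ 2 + u ^ 6 := by
    rw [← sq_abs u]
    have e : u ^ 6 = |u| ^ 6 := by
      rw [show (6 : ℕ) = 2 * 3 from rfl, pow_mul, pow_mul, sq_abs]
    rw [e]
    have h := abs_nonneg u
    rcases le_total (|u|) 1 with h1 | h1
    · have : |u| ^ 3 ≤ |u| ^ 2 := pow_le_pow_of_le_one h h1 (by norm_num)
      have h2 : 0 ≤ |u| ^ 6 := by positivity
      linarith
    · have : |u| ^ 3 ≤ |u| ^ 6 := pow_le_pow_right₀ h1 (by norm_num)
      have h2 : 0 ≤ |u| ^ 2 := by positivity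
      linarith
  have h6 : |u| ^ 3 * |u| ^ 3 = u ^ 6 := by
    rw [← pow_add]
    norm_num
    rw [show (6 : ℕ) = 2 * 3 from rfl, pow_mul, pow_mul, sq_abs]
  have h60 : 0 ≤ u ^ 6 := by positivity
  by_cases hx : x ∈ Metric.ball R 1
  · have e : qb 1 R x = invd R x ^ 2 := by
      unfold qb
      rw [indicator_of_mem hx]
    rw [e]
    nlinarith [sq_nonneg (|u| ^ 3 - invd R x), sq_nonneg u]
  · have h1 : invd R x ≤ 1 := by
      unfold invd
      rw [Metric.mem_ball, not_lt, dist_eq_norm] at hx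
      exact inv_le_one_of_one_le₀ hx
    have h3 : 0 ≤ |u| ^ 3 := by positivity
    have h2 : |u| ^ 3 * invd R x ≤ |u| ^ 3 := mul_le_of_le_one_right h3 h1
    nlinarith

end Pool.Agent.MP_a69704_mp
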