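import Pool.Agent.MP_a69704_mp.Near

open MeasureTheory Set Filter Topology
open scoped ENNReal NNReal

noncomputable section

namespace Pool.Agent.MP_a69704_mp

variable (S : Params)

lemma int_add3 {f g h : E3 → ℝ} (hf : Integrable f) (hg : Integrable g) (hh : Integrable h) :
    ∫ x, (f x + g x + h x) = (∫ x, f x) + (∫ x, g x) + ∫ x, h x := by
  have h1 : Integrable (fun x => f x + g x) := hf.add hg
  rw [integral_add h1 hh, integral_add hf hg]

lemma norm_pow_six (t : ℝ) : ‖t‖ ^ 6 = t ^ 6 := by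
  rw [Real.norm_eq_abs, show (6 : ℕ) = 2 * 3 from rfl, pow_mul, pow_mul, sq_abs]

/-- Sobolev inequality, real form -/
theorem sobolev_real : ∃ K : ℝ, 0 ≤ K ∧ ∀ {ψ : E3 → ℝ} {G : E3 → E3}, MemLp ψ 2 → MemLp G 2 →
    IsWeakGradient ψ G → Integrable (fun x => ψ x ^ 6) ∧
      ∫ x, ψ x ^ 6 ≤ K * (∫ x, ‖G x‖ ^ 2) ^ 3 := by
  obtain ⟨K, hK⟩ := exists_sobolev
  refine ⟨(K : ℝ) ^ 6, by positivity, fun {ψ G} hψ hG hw => ?_⟩
  have h := hK hψ hG hw
  have hlt : eLpNorm ψ 6 volume < ∞ :=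
    lt_of_le_of_lt h (ENNReal.mul_lt_top ENNReal.coe_lt_top hG.2)
  have h6 : MemLp ψ 6 := ⟨hψ.1, hlt⟩
  have hi : Integrable (fun x => ψ x ^ 6) := by
    have := h6.integrable_norm_pow (by norm_num)
    apply this.congr
    apply Eventually.of_forall
    intro x
    exact norm_pow_six (ψ x)
  refine ⟨hi, ?_⟩
  have e1 : eLpNorm ψ 6 volume ^ 6 = ENNReal.ofReal (∫ x, ψ x ^ 6) := by
    rw [eLpNorm_eq_lintegral_rpow_enorm_toReal (by norm_num) (by norm_num)]
    rw [← ENNReal.rpow_natCast, ← ENNReal.rpow_mul]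
    have : 1 / (6 : ℝ≥0∞).toReal * ((6 : ℕ) : ℝ) = 1 := by norm_num
    rw [this, ENNReal.rpow_one,
      ofReal_integral_eq_lintegral_ofReal hi (Eventually.of_forall fun x => by
        change 0 ≤ ψ x ^ 6
        rw [← norm_pow_six]; positivity)]
    apply lintegral_congr
    intro x
    rw [← norm_pow_six, ENNReal.ofReal_pow (norm_nonneg _), ofReal_norm]
    norm_num
  have e2 : ((K : ℝ≥0∞) * eLpNorm G 2 volume) ^ 6
      = ENNReal.ofReal ((K : ℝ) ^ 6 * (∫ x, ‖G x‖ ^ 2) ^ 3) := by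
    rw [mul_pow, show (6 : ℕ) = 2 * 3 from rfl, pow_mul (eLpNorm G 2 volume), eLpNorm_two_sq,
      lintegral_enorm_sq hG, ENNReal.ofReal_mul (by positivity), ← ENNReal.ofReal_pow (by positivity),
      ENNReal.ofReal_pow (by positivity) (p := (K : ℝ))]
    simp
  have h2 : eLpNorm ψ 6 volume ^ 6 ≤ ((K : ℝ≥0∞) * eLpNorm G 2 volume) ^ 6 := by gcongr
  rw [e1, e2, ENNReal.ofReal_le_ofReal_iff (by positivity)] at h2
  exact h2

/-- the Sobolev constant -/
def KS : ℝ := sobolev_real.choose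
lemma KS_nonneg : 0 ≤ KS := sobolev_real.choose_spec.1
lemma integrable_six {ψ : E3 → ℝ} {G : E3 → E3} (hψ : MemLp ψ 2) (hG : MemLp G 2)
    (hw : IsWeakGradient ψ G) : Integrable (fun x => ψ x ^ 6) :=
  (sobolev_real.choose_spec.2 hψ hG hw).1
lemma sobolev_six {ψ : E3 → ℝ} {G : E3 → E3} (hψ : MemLp ψ 2) (hG : MemLp G 2)
    (hw : IsWeakGradient ψ G) : ∫ x, ψ x ^ 6 ≤ KS * (∫ x, ‖G x‖ ^ 2) ^ 3 :=
  (sobolev_real.choose_spec.2 hψ hG hw).2

lemma IsTest.six_le {u : E3 → ℝ} (hu : IsTest u) :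
    ∫ x, u x ^ 6 ≤ KS * (∫ x, ‖fderiv ℝ u x‖ ^ 2) ^ 3 := by
  have := sobolev_six (hu.memLp 2) (hu.memLp_grad 2) (isWeakGradient_grad hu)
  simp_rw [norm_grad] at this
  exact this

/-- continuous functions of a test function vanishing at zero are integrable -/
lemma IsTest.integrable_comp {u : E3 → ℝ} (hu : IsTest u) {g : ℝ → ℝ} (hg : Continuous g)
    (h0 : g 0 = 0) : Integrable (fun x => g (u x)) :=
  (hg.comp hu.1.continuous).integrable_of_hasCompactSupport (hu.2.comp_left h0)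

/-- the tail constant -/
def Params.Q (r : ℝ) : ℝ := ∑ j, S.z j * ∫ x, qb r (S.R j) x

lemma Params.Q_nonneg (r : ℝ) : 0 ≤ S.Q r :=
  Finset.sum_nonneg fun j _ => mul_nonneg (S.z_pos j).le (integral_nonneg fun x => qb_nonneg _ _ _)

lemma integrable_invd_cc {f : E3 → ℝ} {u : E3 → ℝ} (hu : IsTest u) (R : E3)
    (hf : Continuous f) (hfu : ∀ x, |f x| ≤ |u x|) : Integrable (fun x => f x * invd R x) := by
  -- |f| ≤ |u| and u bounded with compact support; invd ≤ 1 + qb 1
  obtain ⟨C, hC⟩ := hu.2.exists_bound_of_continuous hu.1.continuous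
  have hi : Integrable (fun x => |u x| + C * qb 1 R x) := by
    apply Integrable.add
    · exact (hu.integrable_comp continuous_abs (by simp))
    · exact (integrable_qb 1 R).const_mul C
  apply hi.mono' (hf.aestronglyMeasurable.mul (measurable_invd R).aestronglyMeasurable)
  apply Eventually.of_forall
  intro x
  change ‖f x * invd R x‖ ≤ _
  rw [Real.norm_eq_abs, abs_mul, abs_of_nonneg (invd_nonneg R x)]
  have hCx := hC x
  rw [Real.norm_eq_abs] at hCx
  have hfx := hfu x
  have hinv := invd_nonneg R x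
  have hq := qb_nonneg 1 R x
  have habs := abs_nonneg (f x)
  by_cases hx : x ∈ Metric.ball R 1
  · have e : qb 1 R x = invd R x ^ 2 := by
      unfold qb
      rw [indicator_of_mem hx]
    have h1 : 1 ≤ invd R x ∨ invd R x = 0 := by
      unfold invd
      rw [Metric.mem_ball, dist_eq_norm] at hx
      rcases (norm_nonneg (x - R)).eq_or_lt with h | h
      · right; rw [← h]; simp
      · left; exact (one_le_inv₀ h).2 hx.le
    rcases h1 with h1 | h1
    · rw [e]
      have : invd R x ≤ invd R x ^ 2 := by nlinarith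
      calc |f x| * invd R x ≤ C * invd R x := by
            exact mul_le_mul_of_nonneg_right (hfx.trans hCx) hinv
        _ ≤ C * invd R x ^ 2 := by
            apply mul_le_mul_of_nonneg_left this
            exact (abs_nonneg _).trans hCx
        _ ≤ _ := by linarith [abs_nonneg (u x)]
    · rw [h1, mul_zero]
      have : 0 ≤ C := (abs_nonneg _).trans hCx
      positivity
  · have h1 : invd R x ≤ 1 := by
      unfold invd
      rw [Metric.mem_ball, not_lt, dist_eq_norm] at hx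
      exact inv_le_one_of_one_le₀ hx
    have : 0 ≤ C := (abs_nonneg _).trans hCx
    have h2 : |f x| * invd R x ≤ |f x| := mul_le_of_le_one_right habs h1
    have h3 : 0 ≤ C * qb 1 R x := by positivity
    linarith

lemma integrable_V_cc {f : E3 → ℝ} {u : E3 → ℝ} (hu : IsTest u)
    (hf : Continuous f) (hfu : ∀ x, |f x| ≤ |u x|) : Integrable (fun x => S.V x * f x) := by
  have : (fun x => S.V x * f x) = fun x => ∑ j, S.z j * (f x * invd (S.R j) x) := by
    ext x
    rw [S.V_eq, Finset.sum_mul]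
    congr 1
    ext j
    ring
  rw [this]
  exact integrable_finsetSum _ fun j _ => (integrable_invd_cc hu _ hf hfu).const_mul _

lemma integral_V_eq {f : E3 → ℝ} {u : E3 → ℝ} (hu : IsTest u)
    (hf : Continuous f) (hfu : ∀ x, |f x| ≤ |u x|) :
    ∫ x, S.V x * f x = ∑ j, S.z j * ∫ x, f x * invd (S.R j) x := by
  have : (fun x => S.V x * f x) = fun x => ∑ j, S.z j * (f x * invd (S.R j) x) := by
    ext x
    rw [S.V_eq, Finset.sum_mul]
    congr 1
    ext j
    ring
  rw [this, integral_finsetSum _ fun j _ => (integrable_invd_cc hu _ hf hfu).const_mul _]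
  simp_rw [integral_const_mul]

/-- test functions: powers -/
lemma IsTest.pow {u : E3 → ℝ} (hu : IsTest u) {n : ℕ} (hn : n ≠ 0) : IsTest (fun x => u x ^ n) :=
  ⟨hu.1.pow n, hu.2.comp_left (g := fun t : ℝ => t ^ n) (by simp [hn])⟩

lemma IsTest.const_mul {u : E3 → ℝ} (hu : IsTest u) (c : ℝ) : IsTest (fun x => c * u x) :=
  ⟨contDiff_const.mul hu.1, hu.2.mul_left⟩

/-- uniform bound of the cubic potential term -/
lemma cubic_bound {u : E3 → ℝ} (hu : IsTest u) :
    ∫ x, S.V x * |u x| ^ 3 ≤ S.Z * ((∫ x, u x ^ 2) + 3 / 2 * ∫ x, u x ^ 6) + 1 / 2 * S.Q 1 := by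
  have hu3 := hu.pow (n := 3) (by norm_num)
  have hc : Continuous (fun x => |u x| ^ 3) := hu.1.continuous.abs.pow 3
  rw [integral_V_eq S hu3 hc (fun x => by rw [abs_pow, abs_pow, abs_abs])]
  have i2 := hu.integrable_comp (g := fun t => t ^ 2) (by fun_prop) (by simp)
  have i6 := hu.integrable_comp (g := fun t => t ^ 6) (by fun_prop) (by simp)
  have step : ∀ j, ∫ x, |u x| ^ 3 * invd (S.R j) x
      ≤ ((∫ x, u x ^ 2) + 3 / 2 * ∫ x, u x ^ 6) + 1 / 2 * ∫ x, qb 1 (S.R j) x := by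
    intro j
    rw [← integral_const_mul, ← integral_const_mul,
      ← int_add3 i2 (i6.const_mul _) ((integrable_qb _ _).const_mul _)]
    apply integral_mono
    · exact integrable_invd_cc hu3 _ hc (fun x => by rw [abs_pow, abs_pow, abs_abs])
    · exact (i2.add (i6.const_mul _)).add ((integrable_qb _ _).const_mul _)
    · intro x
      exact pt_bound3 (u x) (S.R j) x
  calc ∑ j, S.z j * ∫ x, |u x| ^ 3 * invd (S.R j) x
      ≤ ∑ j, S.z j * (((∫ x, u x ^ 2) + 3 / 2 * ∫ x, u x ^ 6) + 1 / 2 * ∫ x, qb 1 (S.R j) x) := by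
        apply Finset.sum_le_sum
        intro j _
        exact mul_le_mul_of_nonneg_left (step j) (S.z_pos j).le
    _ = _ := by
        simp_rw [mul_add]
        rw [Finset.sum_add_distrib, Finset.sum_add_distrib, ← Finset.sum_mul, ← Finset.sum_mul]
        unfold Params.Q Params.Z
        rw [Finset.mul_sum]
        congr 1
        apply Finset.sum_congr rfl
        intro j _
        ring

lemma pt_bound4 {T w : ℝ} (hT : 0 < T) (hw : 0 ≤ w) :
    w ^ 4 ≤ T ^ (4 / 3 : ℝ) * w ^ (8 / 3 : ℝ) + (T ^ 2)⁻¹ * w ^ 6 := by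
  rcases hw.eq_or_lt with h | hw
  · rw [← h]
    simp
  · rcases le_total w T with h | h
    · have e : w ^ 4 = w ^ (4 / 3 : ℝ) * w ^ (8 / 3 : ℝ) := by
        rw [← Real.rpow_add hw, ← Real.rpow_natCast]
        norm_num
      rw [e]
      have h1 : w ^ (4 / 3 : ℝ) ≤ T ^ (4 / 3 : ℝ) := Real.rpow_le_rpow hw.le h (by norm_num)
      have h2 : 0 ≤ (T ^ 2)⁻¹ * w ^ 6 := by positivity
      have h3 : 0 ≤ w ^ (8 / 3 : ℝ) := by positivity
      nlinarith
    · have h1 : w ^ 4 ≤ (T ^ 2)⁻¹ * w ^ 6 := by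
        rw [le_inv_mul_iff₀ (by positivity)]
        have : T ^ 2 ≤ w ^ 2 := pow_le_pow_left₀ hT.le h 2
        calc T ^ 2 * w ^ 4 ≤ w ^ 2 * w ^ 4 := by gcongr
          _ = w ^ 6 := by ring
      have h2 : 0 ≤ T ^ (4 / 3 : ℝ) * w ^ (8 / 3 : ℝ) := by positivity
      linarith

/-- The exchange integral is bounded below for functions feeling the potential. -/
lemma exists_X_lower {b s6 : ℝ} (hb : 0 < b) (hs6 : 0 ≤ s6) : ∃ c : ℝ, 0 < c ∧
    ∀ w, IsTest w → (∀ x, 0 ≤ w x) → ∫ x, w x ^ 2 ≤ 1 → ∫ x, w x ^ 6 ≤ s6 →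
      b ≤ ∫ x, S.V x * w x ^ 2 → c ≤ ∫ x, w x ^ (8 / 3 : ℝ) := by
  have hZ := S.Z_pos
  set r := 4 * S.Z / b with hr_def
  have hr : 0 < r := by positivity
  have hQ := S.Q_nonneg r
  set η := b / (2 * (S.Q r + 1)) with hη_def
  have hη : 0 < η := by positivity
  set L := S.Z / (2 * η) with hL_def
  have hL : 0 < L := by positivity
  -- T with L * s6 / T^2 ≤ b / 4
  set T := √(4 * L * (s6 + 1) / b) with hT_def
  have hT : 0 < T := by
    apply Real.sqrt_pos.2
    positivity
  have hT2 : T ^ 2 = 4 * L * (s6 + 1) / b := Real.sq_sqrt (by positivity)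
  have hTb : L * ((T ^ 2)⁻¹ * s6) ≤ b / 4 := by
    rw [hT2, inv_div]
    have : L * (b / (4 * L * (s6 + 1)) * s6) = b / 4 * (s6 / (s6 + 1)) := by
      field_simp
    rw [this]
    have h1 : s6 / (s6 + 1) ≤ 1 := by
      rw [div_le_one (by positivity)]
      linarith
    nlinarith
  refine ⟨b / 4 / (L * T ^ (4 / 3 : ℝ)), by positivity, ?_⟩
  intro w hw hw0 hw2 hw6 hVw
  have hw2' := hw.pow (n := 2) (by norm_num)
  have hcont2 : Continuous (fun x => w x ^ 2) := hw.1.continuous.pow 2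
  have i2 := hw.integrable_comp (g := fun t => t ^ 2) (by fun_prop) (by simp)
  have i4 := hw.integrable_comp (g := fun t => t ^ 4) (by fun_prop) (by simp)
  have i6 := hw.integrable_comp (g := fun t => t ^ 6) (by fun_prop) (by simp)
  have i83 : Integrable (fun x => w x ^ (8 / 3 : ℝ)) :=
    hw.integrable_comp (g := fun t => t ^ (8 / 3 : ℝ))
      (Real.continuous_rpow_const (by norm_num)) (Real.zero_rpow (by norm_num))
  rw [integral_V_eq S hw2' hcont2 (fun x => le_rfl)] at hVw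
  have step : ∀ j, ∫ x, w x ^ 2 * invd (S.R j) x
      ≤ (∫ x, w x ^ 2) / r + η / 2 * (∫ x, qb r (S.R j) x) + 1 / (2 * η) * ∫ x, w x ^ 4 := by
    intro j
    rw [← integral_div, ← integral_const_mul, ← integral_const_mul,
      ← int_add3 (i2.div_const _) ((integrable_qb _ _).const_mul _) (i4.const_mul _)]
    apply integral_mono
    · exact integrable_invd_cc hw2' _ hcont2 (fun x => le_rfl)
    · exact ((i2.div_const _).add ((integrable_qb _ _).const_mul _)).add (i4.const_mul _)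
    · intro x
      exact pt_bound1 hr hη (S.R j) x
  have h1 : b ≤ S.Z * ((∫ x, w x ^ 2) / r) + η / 2 * S.Q r + L * ∫ x, w x ^ 4 := by
    refine hVw.trans ?_
    calc ∑ j, S.z j * ∫ x, w x ^ 2 * invd (S.R j) x
        ≤ ∑ j, S.z j * ((∫ x, w x ^ 2) / r + η / 2 * (∫ x, qb r (S.R j) x)
          + 1 / (2 * η) * ∫ x, w x ^ 4) := by
          apply Finset.sum_le_sum
          intro j _
          exact mul_le_mul_of_nonneg_left (step j) (S.z_pos j).le
      _ = _ := by
          simp_rw [mul_add]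
          rw [Finset.sum_add_distrib, Finset.sum_add_distrib, ← Finset.sum_mul, ← Finset.sum_mul]
          rw [hL_def]
          unfold Params.Q Params.Z
          rw [Finset.mul_sum]
          have e1 : ∑ j, S.z j * (η / 2 * ∫ x, qb r (S.R j) x)
              = ∑ j, η / 2 * (S.z j * ∫ x, qb r (S.R j) x) := by
            apply Finset.sum_congr rfl
            intro j _
            ring
          rw [e1]
          ring
  have h2 : S.Z * ((∫ x, w x ^ 2) / r) ≤ b / 4 := by
    have : S.Z * ((∫ x, w x ^ 2) / r) = b / 4 * ∫ x, w x ^ 2 := by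
      rw [hr_def]
      field_simp
    rw [this]
    nlinarith
  have h3 : η / 2 * S.Q r ≤ b / 4 := by
    rw [hη_def]
    have : b / (2 * (S.Q r + 1)) / 2 * S.Q r = b / 4 * (S.Q r / (S.Q r + 1)) := by
      field_simp
      ring
    rw [this]
    have h1 : S.Q r / (S.Q r + 1) ≤ 1 := by
      rw [div_le_one (by positivity)]
      linarith
    nlinarith
  have h4 : ∫ x, w x ^ 4 ≤ T ^ (4 / 3 : ℝ) * (∫ x, w x ^ (8 / 3 : ℝ)) + (T ^ 2)⁻¹ * ∫ x, w x ^ 6 := by
    rw [← integral_const_mul, ← integral_const_mul, ← integral_add (i83.const_mul _) (i6.const_mul _)]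
    apply integral_mono i4 ((i83.const_mul _).add (i6.const_mul _))
    intro x
    exact pt_bound4 hT (hw0 x)
  have h5 : L * ∫ x, w x ^ 4 ≤ L * (T ^ (4 / 3 : ℝ) * (∫ x, w x ^ (8 / 3 : ℝ))) + b / 4 := by
    have h6 : L * ((T ^ 2)⁻¹ * ∫ x, w x ^ 6) ≤ L * ((T ^ 2)⁻¹ * s6) := by gcongr
    nlinarith
  rw [div_le_iff₀ (by positivity)]
  nlinarith

end Pool.Agent.MP_a69704_mp
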