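import Pool.Agent.MP_a69704_mp.Near2

open MeasureTheory Set Filter Topology
open scoped ENNReal NNReal

noncomputable section

namespace Pool.Agent.MP_a69704_mp

variable (S : Params)

/-- regularised absolute value -/
def ra (τ s : ℝ) : ℝ := √(s ^ 2 + τ ^ 2) - τ

/-- truncated regularised absolute value -/
def tr (M τ s : ℝ) : ℝ := M * ra τ s / (M + ra τ s)

lemma ra_nonneg {τ : ℝ} (hτ : 0 < τ) (s : ℝ) : 0 ≤ ra τ s := by
  unfold ra
  have : τ ≤ √(s ^ 2 + τ ^ 2) := by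
    apply Real.le_sqrt_of_sq_le
    nlinarith [sq_nonneg s]
  linarith

lemma ra_le {τ : ℝ} (hτ : 0 < τ) (s : ℝ) : ra τ s ≤ |s| := by
  unfold ra
  have h : √(s ^ 2 + τ ^ 2) ≤ |s| + τ := by
    rw [Real.sqrt_le_left (by positivity)]
    have h1 := sq_abs s
    have h2 := mul_nonneg (abs_nonneg s) hτ.le
    nlinarith
  linarith

lemma abs_le_ra {τ : ℝ} (s : ℝ) : |s| - τ ≤ ra τ s := by
  unfold ra
  have h : |s| ≤ √(s ^ 2 + τ ^ 2) := by
    apply Real.le_sqrt_of_sq_le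
    rw [sq_abs]
    nlinarith [sq_nonneg τ]
  linarith

lemma hasDerivAt_ra {τ : ℝ} (hτ : 0 < τ) (s : ℝ) :
    HasDerivAt (ra τ) (s / √(s ^ 2 + τ ^ 2)) s := by
  have h1 : HasDerivAt (fun s : ℝ => s ^ 2 + τ ^ 2) (2 * s) s := by
    simpa using (hasDerivAt_pow 2 s).add_const (τ ^ 2)
  have h2 := (h1.sqrt (by positivity : s ^ 2 + τ ^ 2 ≠ 0)).sub_const τ
  convert! h2 using 1
  have : √(s ^ 2 + τ ^ 2) ≠ 0 := by positivity
  field_simp

lemma contDiff_ra {τ : ℝ} (hτ : 0 < τ) : ContDiff ℝ (⊤ : ℕ∞) (ra τ) := by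
  unfold ra
  apply ContDiff.sub _ contDiff_const
  apply ContDiff.sqrt
  · fun_prop
  · intro s
    positivity

lemma contDiff_tr {M τ : ℝ} (hM : 0 < M) (hτ : 0 < τ) : ContDiff ℝ (⊤ : ℕ∞) (tr M τ) := by
  unfold tr
  apply ContDiff.div
  · exact contDiff_const.mul (contDiff_ra hτ)
  · exact contDiff_const.add (contDiff_ra hτ)
  · intro s
    have := ra_nonneg hτ s
    positivity

lemma tr_zero {M τ : ℝ} (hτ : 0 < τ) : tr M τ 0 = 0 := by
  unfold tr ra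
  have : √((0 : ℝ) ^ 2 + τ ^ 2) = τ := by
    rw [zero_pow (by norm_num), zero_add, Real.sqrt_sq hτ.le]
  rw [this]
  simp

lemma tr_nonneg {M τ : ℝ} (hM : 0 < M) (hτ : 0 < τ) (s : ℝ) : 0 ≤ tr M τ s := by
  have := ra_nonneg hτ s
  unfold tr
  positivity

lemma tr_le_M {M τ : ℝ} (hM : 0 < M) (hτ : 0 < τ) (s : ℝ) : tr M τ s ≤ M := by
  have := ra_nonneg hτ s
  unfold tr
  rw [div_le_iff₀ (by positivity)]
  nlinarith

lemma tr_le_ra {M τ : ℝ} (hM : 0 < M) (hτ : 0 < τ) (s : ℝ) : tr M τ s ≤ ra τ s := by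
  have := ra_nonneg hτ s
  unfold tr
  rw [div_le_iff₀ (by positivity)]
  nlinarith

lemma abs_deriv_tr_le {M τ : ℝ} (hM : 0 < M) (hτ : 0 < τ) (s : ℝ) : |deriv (tr M τ) s| ≤ 1 := by
  have hr := ra_nonneg hτ s
  have h1 := hasDerivAt_ra hτ s
  have h2 : HasDerivAt (tr M τ) ((M * (s / √(s ^ 2 + τ ^ 2)) * (M + ra τ s)
      - M * ra τ s * (s / √(s ^ 2 + τ ^ 2))) / (M + ra τ s) ^ 2) s :=
    (h1.const_mul M).div (h1.const_add M) (by positivity)
  rw [h2.deriv]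
  have h3 : (M * (s / √(s ^ 2 + τ ^ 2)) * (M + ra τ s) - M * ra τ s * (s / √(s ^ 2 + τ ^ 2)))
      / (M + ra τ s) ^ 2 = (s / √(s ^ 2 + τ ^ 2)) * (M ^ 2 / (M + ra τ s) ^ 2) := by
    have : √(s ^ 2 + τ ^ 2) ≠ 0 := by positivity
    have : M + ra τ s ≠ 0 := by positivity
    field_simp
    ring
  rw [h3, abs_mul]
  have h4 : |s / √(s ^ 2 + τ ^ 2)| ≤ 1 := by
    rw [abs_div, abs_of_nonneg (Real.sqrt_nonneg _), div_le_one (by positivity)]
    apply Real.le_sqrt_of_sq_le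
    rw [sq_abs]
    nlinarith [sq_nonneg τ]
  have h5 : |M ^ 2 / (M + ra τ s) ^ 2| ≤ 1 := by
    rw [abs_of_nonneg (by positivity), div_le_one (by positivity)]
    apply pow_le_pow_left₀ hM.le
    linarith
  calc |s / √(s ^ 2 + τ ^ 2)| * |M ^ 2 / (M + ra τ s) ^ 2| ≤ 1 * 1 :=
        mul_le_mul h4 h5 (abs_nonneg _) zero_le_one
    _ = 1 := by norm_num

lemma sq_sub_tr_sq_le {M τ : ℝ} (hM : 0 < M) (hτ : 0 < τ) (s : ℝ) :
    s ^ 2 - tr M τ s ^ 2 ≤ 2 * τ * |s| + 2 / M * |s| ^ 3 := by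
  have hr := ra_nonneg hτ s
  have hr2 := ra_le hτ s
  have hr3 := abs_le_ra (τ := τ) s
  have ht := tr_nonneg hM hτ s
  have ht2 := tr_le_ra hM hτ s
  have habs := abs_nonneg s
  have h1 : s ^ 2 - ra τ s ^ 2 ≤ 2 * τ * |s| := by
    rw [← sq_abs s]
    nlinarith
  have h2 : ra τ s - tr M τ s ≤ ra τ s ^ 2 / M := by
    unfold tr
    have h3 : ra τ s - M * ra τ s / (M + ra τ s) = ra τ s ^ 2 / (M + ra τ s) := by
      have : M + ra τ s ≠ 0 := by positivity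
      field_simp
      ring
    rw [h3]
    gcongr
    linarith
  have h4 : ra τ s ^ 2 - tr M τ s ^ 2 ≤ 2 / M * |s| ^ 3 := by
    have h5 : ra τ s ^ 2 - tr M τ s ^ 2 = (ra τ s - tr M τ s) * (ra τ s + tr M τ s) := by ring
    rw [h5]
    calc (ra τ s - tr M τ s) * (ra τ s + tr M τ s) ≤ (ra τ s ^ 2 / M) * (2 * ra τ s) := by
          apply mul_le_mul h2 (by linarith) (by positivity) (by positivity)
      _ = 2 / M * ra τ s ^ 3 := by ring
      _ ≤ 2 / M * |s| ^ 3 := by gcongr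
  linarith

/-- composition of a test function with the truncation -/
lemma isTest_tr {M τ : ℝ} (hM : 0 < M) (hτ : 0 < τ) {u : E3 → ℝ} (hu : IsTest u) :
    IsTest (fun x => tr M τ (u x)) :=
  ⟨(contDiff_tr hM hτ).comp hu.1, hu.2.comp_left (tr_zero hτ)⟩

lemma norm_fderiv_tr_le {M τ : ℝ} (hM : 0 < M) (hτ : 0 < τ) {u : E3 → ℝ} (hu : IsTest u) (x : E3) :
    ‖fderiv ℝ (fun x => tr M τ (u x)) x‖ ≤ ‖fderiv ℝ u x‖ := by
  have h1 : HasDerivAt (tr M τ) (deriv (tr M τ) (u x)) (u x) :=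
    (((contDiff_tr hM hτ).differentiable (by simp)) (u x)).hasDerivAt
  have h2 : HasFDerivAt u (fderiv ℝ u x) x := ((hu.1.differentiable (by simp)) x).hasFDerivAt
  have h3 := h1.comp_hasFDerivAt x h2
  have h4 : fderiv ℝ (fun x => tr M τ (u x)) x = deriv (tr M τ) (u x) • fderiv ℝ u x := h3.fderiv
  rw [h4, norm_smul, Real.norm_eq_abs]
  exact mul_le_of_le_one_left (norm_nonneg _) (abs_deriv_tr_le hM hτ _)

lemma IsTest.integrable_grad_sq {u : E3 → ℝ} (hu : IsTest u) :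
    Integrable (fun x => ‖fderiv ℝ u x‖ ^ 2) := by
  have := integrable_norm_sq (hu.memLp_grad 2)
  simpa [norm_grad] using this

/-- `H¹` bound -/
def Params.C1 : ℝ := 2 * S.K0 / S.A
/-- `L⁶` bound -/
def Params.S6 : ℝ := KS * S.C1 ^ 3
/-- truncation error constant -/
def Params.C2 : ℝ := 2 * (S.Z * (1 + 3 / 2 * S.S6) + 1 / 2 * S.Q 1)

lemma C1_pos : 0 < S.C1 := by
  have := S.K0_pos
  have := S.A_pos
  unfold Params.C1
  positivity

lemma S6_nonneg : 0 ≤ S.S6 := by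
  have := C1_pos S
  have := KS_nonneg
  unfold Params.S6
  positivity

lemma C2_pos : 0 < S.C2 := by
  have := S6_nonneg S
  have := S.Z_pos
  have := S.Q_nonneg 1
  unfold Params.C2
  positivity

/-- normalised near-minimisers -/
lemma near_min1 {δ : ℝ} (hδ : 0 < δ) (hδa : δ ≤ S.a) : ∃ v, IsTest v ∧ ∫ x, v x ^ 2 = 1 ∧
    S.A * (∫ x, ‖fderiv ℝ v x‖ ^ 2) + (S.a - δ) < ∫ x, S.V x * v x ^ 2 := by
  obtain ⟨u, hu, hlt⟩ := exists_near S (a' := S.a - δ) (by linarith) (by linarith)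
  have hm0 : 0 ≤ ∫ x, u x ^ 2 := by positivity
  have hm : 0 < ∫ x, u x ^ 2 := by
    rcases hm0.eq_or_lt with h | h
    · exfalso
      have h1 := a_spec S u hu
      rw [← h] at h1 hlt
      linarith
    · exact h
  set m := ∫ x, u x ^ 2 with hm_def
  have hs : (√m)⁻¹ ^ 2 = m⁻¹ := by
    rw [inv_pow, Real.sq_sqrt hm.le]
  refine ⟨fun x => (√m)⁻¹ * u x, hu.const_mul _, ?_, ?_⟩
  · simp_rw [mul_pow, hs]
    rw [integral_const_mul, ← hm_def]
    field_simp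
  · have e1 : ∀ x, ‖fderiv ℝ (fun x => (√m)⁻¹ * u x) x‖ ^ 2 = m⁻¹ * ‖fderiv ℝ u x‖ ^ 2 := by
      intro x
      have : fderiv ℝ (fun x => (√m)⁻¹ * u x) x = (√m)⁻¹ • fderiv ℝ u x :=
        ((((hu.1.differentiable (by simp)) x).hasFDerivAt).const_mul ((√m)⁻¹)).fderiv
      rw [this, norm_smul, mul_pow, Real.norm_eq_abs, sq_abs, hs]
    simp_rw [e1, mul_pow, hs]
    rw [integral_const_mul]
    have e2 : ∫ x, S.V x * (m⁻¹ * u x ^ 2) = m⁻¹ * ∫ x, S.V x * u x ^ 2 := by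
      rw [← integral_const_mul]
      congr 1
      ext x
      ring
    rw [e2]
    have h3 : m⁻¹ * (S.A * (∫ x, ‖fderiv ℝ u x‖ ^ 2) + (S.a - δ) * m) < m⁻¹ * ∫ x, S.V x * u x ^ 2 :=
      mul_lt_mul_of_pos_left hlt (by positivity)
    have h4 : m⁻¹ * (S.A * (∫ x, ‖fderiv ℝ u x‖ ^ 2) + (S.a - δ) * m)
        = S.A * (m⁻¹ * ∫ x, ‖fderiv ℝ u x‖ ^ 2) + (S.a - δ) := by
      field_simp
    linarith

/-- near-minimisers which are nonnegative and bounded by `M` -/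
lemma near_min {M δ : ℝ} (hM : 0 < M) (hδ : 0 < δ) (hδa : δ ≤ S.a) :
    ∃ w, IsTest w ∧ (∀ x, 0 ≤ w x) ∧ (∀ x, w x ≤ M) ∧ ∫ x, w x ^ 2 ≤ 1 ∧
      ∫ x, ‖fderiv ℝ w x‖ ^ 2 ≤ S.C1 ∧
      S.A * (∫ x, ‖fderiv ℝ w x‖ ^ 2) - (∫ x, S.V x * w x ^ 2) ≤ -S.a + 2 * δ + S.C2 / M := by
  obtain ⟨v, hv, hv1, hlt⟩ := near_min1 S hδ hδa
  have hA := S.A_pos
  have hK0 := S.K0_pos
  -- H1 bound
  have hC1 : ∫ x, ‖fderiv ℝ v x‖ ^ 2 ≤ S.C1 := by
    have h := V_form_bound S (hv.memLp 2) (hv.memLp_grad 2) (isWeakGradient_grad hv)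
    simp_rw [norm_grad] at h
    rw [hv1] at h
    unfold Params.C1
    rw [le_div_iff₀ hA]
    nlinarith
  have hS6 : ∫ x, v x ^ 6 ≤ S.S6 := by
    refine hv.six_le.trans ?_
    unfold Params.S6
    have h0 : 0 ≤ ∫ x, ‖fderiv ℝ v x‖ ^ 2 := by positivity
    have := KS_nonneg
    gcongr
  have hcub := cubic_bound S hv
  rw [hv1] at hcub
  have hcub2 : 2 * ∫ x, S.V x * |v x| ^ 3 ≤ S.C2 := by
    unfold Params.C2
    have hZ := S.Z_pos
    nlinarith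
  -- choice of τ
  set I1 := ∫ x, S.V x * |v x| with hI1
  have hI1n : 0 ≤ I1 := integral_nonneg fun x => mul_nonneg (S.V_nonneg x) (abs_nonneg _)
  obtain ⟨τ, hτ, hτ2⟩ : ∃ τ : ℝ, 0 < τ ∧ 2 * τ * I1 ≤ δ := by
    refine ⟨δ / (2 * (I1 + 1)), by positivity, ?_⟩
    have : 2 * (δ / (2 * (I1 + 1))) * I1 = δ * (I1 / (I1 + 1)) := by
      field_simp
    rw [this]
    have h1 : I1 / (I1 + 1) ≤ 1 := by
      rw [div_le_one (by positivity)]
      linarith
    nlinarith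
  have hw := isTest_tr hM hτ hv
  refine ⟨fun x => tr M τ (v x), hw, fun x => tr_nonneg hM hτ _, fun x => tr_le_M hM hτ _, ?_, ?_, ?_⟩
  · rw [← hv1]
    apply integral_mono (hw.memLp 2).integrable_sq (hv.memLp 2).integrable_sq
    intro x
    have h1 := tr_nonneg hM hτ (v x)
    have h2 := (tr_le_ra hM hτ (v x)).trans (ra_le hτ (v x))
    change tr M τ (v x) ^ 2 ≤ v x ^ 2
    rw [← sq_abs (v x)]
    exact pow_le_pow_left₀ h1 h2 2
  · refine le_trans ?_ hC1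
    apply integral_mono hw.integrable_grad_sq hv.integrable_grad_sq
    intro x
    exact pow_le_pow_left₀ (norm_nonneg _) (norm_fderiv_tr_le hM hτ hv x) 2
  · have h1 : ∫ x, ‖fderiv ℝ (fun x => tr M τ (v x)) x‖ ^ 2 ≤ ∫ x, ‖fderiv ℝ v x‖ ^ 2 := by
      apply integral_mono hw.integrable_grad_sq hv.integrable_grad_sq
      intro x
      exact pow_le_pow_left₀ (norm_nonneg _) (norm_fderiv_tr_le hM hτ hv x) 2
    have iV1 : Integrable (fun x => S.V x * |v x|) :=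
      integrable_V_cc S hv hv.1.continuous.abs (fun x => by rw [abs_abs])
    have iV3 : Integrable (fun x => S.V x * |v x| ^ 3) :=
      integrable_V_cc S (hv.pow (n := 3) (by norm_num)) (hv.1.continuous.abs.pow 3)
        (fun x => by rw [abs_pow, abs_pow, abs_abs])
    have iVw : Integrable (fun x => S.V x * tr M τ (v x) ^ 2) :=
      integrable_V_cc S (hw.pow (n := 2) (by norm_num)) (hw.1.continuous.pow 2) (fun x => le_rfl)
    have h2 : ∫ x, S.V x * v x ^ 2 ≤ (∫ x, S.V x * tr M τ (v x) ^ 2) + (∫ x, 2 * τ * (S.V x * |v x|))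
        + ∫ x, 2 / M * (S.V x * |v x| ^ 3) := by
      rw [← int_add3 iVw (iV1.const_mul _) (iV3.const_mul _)]
      apply integral_mono
      · exact integrable_V_sq S (hv.memLp 2) (hv.memLp_grad 2) (isWeakGradient_grad hv)
      · exact (iVw.add (iV1.const_mul _)).add (iV3.const_mul _)
      · intro x
        have h3 := sq_sub_tr_sq_le hM hτ (v x)
        have h4 := S.V_nonneg x
        change S.V x * v x ^ 2 ≤ S.V x * tr M τ (v x) ^ 2 + 2 * τ * (S.V x * |v x|)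
          + 2 / M * (S.V x * |v x| ^ 3)
        nlinarith
    rw [integral_const_mul, integral_const_mul, ← hI1] at h2
    have h5 : 2 / M * ∫ x, S.V x * |v x| ^ 3 ≤ S.C2 / M := by
      rw [div_mul_eq_mul_div]
      gcongr
    nlinarith

end Pool.Agent.MP_a69704_mp
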