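import Pool.Agent.MP_a69704_mp.Coulomb

open MeasureTheory Set Filter Topology
open scoped ENNReal NNReal

noncomputable section

namespace Pool.Agent.MP_a69704_mp

/-- smooth compactly supported functions -/
def IsTest (u : E3 → ℝ) : Prop := ContDiff ℝ (⊤ : ℕ∞) u ∧ HasCompactSupport u

/-- gradient vector -/
def grad (u : E3 → ℝ) (x : E3) : E3 := (InnerProductSpace.toDual ℝ E3).symm (fderiv ℝ u x)

lemma inner_grad (u : E3 → ℝ) (x v : E3) : inner ℝ (grad u x) v = fderiv ℝ u x v := by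
  simp [grad]

lemma norm_grad (u : E3 → ℝ) (x : E3) : ‖grad u x‖ = ‖fderiv ℝ u x‖ := by
  simp [grad]

lemma continuous_grad {u : E3 → ℝ} (hu : IsTest u) : Continuous (grad u) :=
  (InnerProductSpace.toDual ℝ E3).symm.continuous.comp (hu.1.continuous_fderiv (by simp))

lemma hasCompactSupport_grad {u : E3 → ℝ} (hu : IsTest u) : HasCompactSupport (grad u) :=
  (hu.2.fderiv ℝ).comp_left (g := (InnerProductSpace.toDual ℝ E3).symm) (by simp)

lemma IsTest.memLp {u : E3 → ℝ} (hu : IsTest u) (q : ℝ≥0∞) : MemLp u q :=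
  memLp_of_cc hu.1.continuous hu.2 q

lemma IsTest.memLp_grad {u : E3 → ℝ} (hu : IsTest u) (q : ℝ≥0∞) : MemLp (grad u) q :=
  memLp_of_cc (continuous_grad hu) (hasCompactSupport_grad hu) q

lemma isWeakGradient_grad {u : E3 → ℝ} (hu : IsTest u) : IsWeakGradient u (grad u) := by
  intro φ hφ hφc v
  simp_rw [inner_grad]
  apply integral_mul_fderiv_eq_neg_fderiv_mul_of_integrable
  · exact (((hu.1.continuous_fderiv (by simp)).clm_apply continuous_const).mul
      hφ.continuous).integrable_of_hasCompactSupport (hφc.mul_left)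
  · exact (hu.1.continuous.mul
      ((hφ.continuous_fderiv (by simp)).clm_apply continuous_const)).integrable_of_hasCompactSupport
      (hu.2.mul_right)
  · exact (hu.1.continuous.mul hφ.continuous).integrable_of_hasCompactSupport (hφc.mul_left)
  · exact fun x _ => (hu.1.differentiable (by simp)) x
  · exact fun x _ => (hφ.differentiable (by simp)) x

variable (S : Params)

lemma Params.V_eq (x : E3) : S.V x = ∑ j, S.z j * invd (S.R j) x := by
  unfold Params.V invd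
  simp_rw [div_eq_mul_inv]

lemma Params.V_nonneg (x : E3) : 0 ≤ S.V x := by
  rw [S.V_eq]
  exact Finset.sum_nonneg fun j _ => mul_nonneg (S.z_pos j).le (invd_nonneg _ _)

lemma Params.measurable_V : Measurable S.V := by
  have : S.V = fun x => ∑ j, S.z j * invd (S.R j) x := by
    ext x; exact S.V_eq x
  rw [this]
  exact Finset.measurable_fun_sum _ fun j _ => (measurable_invd _).const_mul _

/-- total charge -/
def Params.Z : ℝ := ∑ j, S.z j

lemma Params.Z_pos : 0 < S.Z := by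
  unfold Params.Z
  have : (Finset.univ : Finset (Fin S.k)).Nonempty := ⟨⟨0, S.k_pos⟩, Finset.mem_univ _⟩
  exact Finset.sum_pos (fun j _ => S.z_pos j) this

/-- form bound constant -/
def Params.K0 : ℝ := S.Z ^ 2 / (2 * S.A)

lemma Params.K0_pos : 0 < S.K0 := by
  have := S.Z_pos
  have := S.A_pos
  unfold Params.K0
  positivity

lemma integrable_V_sq {ψ : E3 → ℝ} {G : E3 → E3}
    (hψ : MemLp ψ 2) (hG : MemLp G 2) (hw : IsWeakGradient ψ G) :
    Integrable (fun x => S.V x * ψ x ^ 2) := by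
  have : (fun x => S.V x * ψ x ^ 2) = fun x => ∑ j, S.z j * (ψ x ^ 2 * invd (S.R j) x) := by
    ext x
    rw [S.V_eq, Finset.sum_mul]
    congr 1
    ext j
    ring
  rw [this]
  exact integrable_finsetSum _ fun j _ => (integrable_sq_invd _ hψ hG hw).const_mul _

lemma V_form_bound {ψ : E3 → ℝ} {G : E3 → E3}
    (hψ : MemLp ψ 2) (hG : MemLp G 2) (hw : IsWeakGradient ψ G) :
    ∫ x, S.V x * ψ x ^ 2 ≤ S.A / 2 * (∫ x, ‖G x‖ ^ 2) + S.K0 * ∫ x, ψ x ^ 2 := by
  have e : ∫ x, S.V x * ψ x ^ 2 = ∑ j, S.z j * ∫ x, ψ x ^ 2 * invd (S.R j) x := by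
    have : (fun x => S.V x * ψ x ^ 2) = fun x => ∑ j, S.z j * (ψ x ^ 2 * invd (S.R j) x) := by
      ext x
      rw [S.V_eq, Finset.sum_mul]
      congr 1
      ext j
      ring
    rw [this, integral_finsetSum _ fun j _ => (integrable_sq_invd _ hψ hG hw).const_mul _]
    simp_rw [integral_const_mul]
  have hZ := S.Z_pos
  have hA := S.A_pos
  have hκ : 0 < S.Z / S.A := by positivity
  rw [e]
  calc ∑ j, S.z j * ∫ x, ψ x ^ 2 * invd (S.R j) x
      ≤ ∑ j, S.z j * (1 / (2 * (S.Z / S.A)) * (∫ x, ‖G x‖ ^ 2) + (S.Z / S.A) / 2 * ∫ x, ψ x ^ 2) := by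
        apply Finset.sum_le_sum
        intro j _
        exact mul_le_mul_of_nonneg_left (coulomb_weak_real hκ _ hψ hG hw) (S.z_pos j).le
    _ = _ := by
        rw [← Finset.sum_mul]
        change S.Z * _ = _
        unfold Params.K0
        field_simp

/-- Transfer of the form inequality -/
lemma V_transfer {a : ℝ} (ha : 0 ≤ a)
    (h : ∀ u, IsTest u → ∫ x, S.V x * u x ^ 2 ≤ S.A * (∫ x, ‖fderiv ℝ u x‖ ^ 2) + a * ∫ x, u x ^ 2)
    {ψ : E3 → ℝ} {G : E3 → E3} (hψ : MemLp ψ 2) (hG : MemLp G 2) (hw : IsWeakGradient ψ G) :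
    ∫ x, S.V x * ψ x ^ 2 ≤ S.A * (∫ x, ‖G x‖ ^ 2) + a * ∫ x, ψ x ^ 2 := by
  have conv : ∀ {ψ : E3 → ℝ}, Integrable (fun x => S.V x * ψ x ^ 2) →
      ∫⁻ x, ‖ψ x‖ₑ ^ 2 * ENNReal.ofReal (S.V x) = ENNReal.ofReal (∫ x, S.V x * ψ x ^ 2) := by
    intro ψ hi
    rw [ofReal_integral_eq_lintegral_ofReal hi (Eventually.of_forall fun x => by
        have := S.V_nonneg x
        positivity)]
    apply lintegral_congr
    intro x
    rw [mul_comm (S.V x), ENNReal.ofReal_mul (by positivity), Real.enorm_eq_ofReal_abs,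
      ← ENNReal.ofReal_pow (abs_nonneg _), sq_abs]
  have sqn : ∀ ψ : E3 → ℝ, ∫ x, ‖ψ x‖ ^ 2 = ∫ x, ψ x ^ 2 := by
    intro ψ
    congr 1; ext x; rw [Real.norm_eq_abs, sq_abs]
  have key := transfer S.measurable_V.ennreal_ofReal (α := ENNReal.ofReal S.A)
    (β := ENNReal.ofReal a) (by simp) (by simp) (fun u hu hc => by
      have ht : IsTest u := ⟨hu, hc⟩
      have hu2 : MemLp u 2 := ht.memLp 2
      have hD2 : MemLp (fderiv ℝ u) 2 :=
        memLp_of_cc (hu.continuous_fderiv (by simp)) (hc.fderiv ℝ) 2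
      rw [conv (integrable_V_sq S hu2 (ht.memLp_grad 2) (isWeakGradient_grad ht)),
        lintegral_enorm_sq hu2, lintegral_enorm_sq hD2, ← ENNReal.ofReal_mul S.A_pos.le,
        ← ENNReal.ofReal_mul ha, ← ENNReal.ofReal_add (mul_nonneg S.A_pos.le (by positivity))
        (by positivity), sqn]
      exact ENNReal.ofReal_le_ofReal (h u ht)) hψ hG hw
  rw [conv (integrable_V_sq S hψ hG hw), lintegral_enorm_sq hψ, lintegral_enorm_sq hG,
    ← ENNReal.ofReal_mul S.A_pos.le, ← ENNReal.ofReal_mul ha,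
    ← ENNReal.ofReal_add (mul_nonneg S.A_pos.le (by positivity)) (by positivity), sqn,
    ENNReal.ofReal_le_ofReal_iff (add_nonneg (mul_nonneg S.A_pos.le (by positivity))
      (by positivity))] at key
  exact key

/-- admissible constants in the form inequality -/
def Params.aSet : Set ℝ :=
  {a | 0 ≤ a ∧ ∀ u, IsTest u →
    ∫ x, S.V x * u x ^ 2 ≤ S.A * (∫ x, ‖fderiv ℝ u x‖ ^ 2) + a * ∫ x, u x ^ 2}

/-- minus the bottom of the spectrum of `-A Δ - V` -/
def Params.a : ℝ := sInf S.aSet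

lemma K0_mem_aSet : S.K0 ∈ S.aSet := by
  refine ⟨S.K0_pos.le, fun u hu => ?_⟩
  have h := V_form_bound S (hu.memLp 2) (hu.memLp_grad 2) (isWeakGradient_grad hu)
  simp_rw [norm_grad] at h
  have h2 : 0 ≤ ∫ x, ‖fderiv ℝ u x‖ ^ 2 := by positivity
  have := S.A_pos
  nlinarith

lemma bddBelow_aSet : BddBelow S.aSet := ⟨0, fun _ ha => ha.1⟩

lemma a_nonneg : 0 ≤ S.a := le_csInf ⟨_, K0_mem_aSet S⟩ fun _ ha => ha.1

lemma a_spec (u : E3 → ℝ) (hu : IsTest u) :
    ∫ x, S.V x * u x ^ 2 ≤ S.A * (∫ x, ‖fderiv ℝ u x‖ ^ 2) + S.a * ∫ x, u x ^ 2 := by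
  apply le_of_forall_pos_le_add
  intro ε hε
  have hm : 0 ≤ ∫ x, u x ^ 2 := by positivity
  obtain ⟨a', ha', hlt⟩ := exists_lt_of_csInf_lt ⟨_, K0_mem_aSet S⟩
    (show sInf S.aSet < S.a + ε / ((∫ x, u x ^ 2) + 1) by
      have : 0 < ε / ((∫ x, u x ^ 2) + 1) := by positivity
      unfold Params.a
      linarith)
  have h1 := ha'.2 u hu
  have h2 : a' * ∫ x, u x ^ 2 ≤ (S.a + ε / ((∫ x, u x ^ 2) + 1)) * ∫ x, u x ^ 2 :=
    mul_le_mul_of_nonneg_right hlt.le hm
  have h3 : ε / ((∫ x, u x ^ 2) + 1) * ∫ x, u x ^ 2 ≤ ε := by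
    rw [div_mul_eq_mul_div, div_le_iff₀ (by positivity)]
    nlinarith
  linarith

lemma a_spec_weak {ψ : E3 → ℝ} {G : E3 → E3} (hψ : MemLp ψ 2) (hG : MemLp G 2)
    (hw : IsWeakGradient ψ G) :
    ∫ x, S.V x * ψ x ^ 2 ≤ S.A * (∫ x, ‖G x‖ ^ 2) + S.a * ∫ x, ψ x ^ 2 :=
  V_transfer S (a_nonneg S) (a_spec S) hψ hG hw

lemma exists_near {a' : ℝ} (h0 : 0 ≤ a') (h : a' < S.a) : ∃ u, IsTest u ∧
    S.A * (∫ x, ‖fderiv ℝ u x‖ ^ 2) + a' * (∫ x, u x ^ 2) < ∫ x, S.V x * u x ^ 2 := by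
  by_contra hcon
  push Not at hcon
  have : a' ∈ S.aSet := ⟨h0, hcon⟩
  have := csInf_le (bddBelow_aSet S) this
  unfold Params.a at h
  linarith

end Pool.Agent.MP_a69704_mp
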