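import Pool.Agent.MP_a69704_mp.Lower

open MeasureTheory Set Filter Topology
open scoped ENNReal NNReal

noncomputable section

namespace Pool.Agent.MP_a69704_mp

variable (S : Params)

lemma sqrt_sq_test {w : E3 → ℝ} (h0 : ∀ x, 0 ≤ w x) : (fun x => √(w x ^ 2)) = w := by
  ext x
  exact Real.sqrt_sq (h0 x)

lemma admissible_test {w : E3 → ℝ} (hw : IsTest w) (h0 : ∀ x, 0 ≤ w x) :
    S.Admissible (fun x => w x ^ 2) (grad w) where
  nonneg := fun x => by positivity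
  grad := by rw [sqrt_sq_test h0]; exact isWeakGradient_grad hw
  grad_L2 := hw.memLp_grad 2
  psi_L6 := by rw [sqrt_sq_test h0]; exact hw.memLp 6
  rho_Lp := (hw.pow (n := 2) (by norm_num)).memLp _

lemma integrable_test {w : E3 → ℝ} (hw : IsTest w) : Integrable (fun x => w x ^ 2) :=
  (hw.memLp 2).integrable_sq

lemma energy_mem {w : E3 → ℝ} (hw : IsTest w) (h0 : ∀ x, 0 ≤ w x) :
    S.energy (fun x => w x ^ 2) (grad w) ∈ S.energies (∫ x, w x ^ 2) :=
  ⟨_, _, admissible_test S hw h0, integrable_test hw, rfl, rfl⟩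

lemma bddBelow_energies (lam : ℝ) : BddBelow (S.energies lam) := by
  refine ⟨S.U - S.a * lam - 2 * (1 / 2) * S.K0 * lam
      - S.cX ^ 2 * lam ^ (5 / 3 : ℝ) / (4 * (1 / 2) * S.A), ?_⟩
  rintro e ⟨ρ, G, hadm, hi, hlam, rfl⟩
  rw [← hlam]
  exact energy_lower hadm hi (by norm_num) le_rfl

lemma nonempty_energies {lam : ℝ} (hlam : 0 ≤ lam) : (S.energies lam).Nonempty := by
  -- use the standard bump
  set m := ∫ x : E3, cut x ^ 2
  have hm : 0 < m := cut_mass_pos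
  have hcut : IsTest (cut : E3 → ℝ) := ⟨cut.contDiff, cut.hasCompactSupport⟩
  have hw : IsTest (fun x => √(lam / m) * cut x) := hcut.const_mul _
  have h0 : ∀ x, 0 ≤ √(lam / m) * cut x := fun x => mul_nonneg (Real.sqrt_nonneg _) cut.nonneg
  have := energy_mem S hw h0
  have e : ∫ x : E3, (√(lam / m) * cut x) ^ 2 = lam := by
    simp_rw [mul_pow]
    rw [Real.sq_sqrt (by positivity), integral_const_mul]
    change lam / m * m = lam
    field_simp
  rw [e] at this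
  exact ⟨_, this⟩

lemma coulombD_scale (s : ℝ) (f : E3 → ℝ) :
    coulombD (fun x => s * f x) (fun x => s * f x) = s ^ 2 * coulombD f f := by
  unfold coulombD
  have : ∀ x : E3, ∫ y, s * f x * (s * f y) / ‖x - y‖ = s ^ 2 * ∫ y, f x * f y / ‖x - y‖ := by
    intro x
    rw [← integral_const_mul]
    congr 1
    ext y
    ring
  simp_rw [this]
  rw [integral_const_mul]
  ring

/-- uniform bound for the Coulomb energy of a test density -/
lemma coulombD_test_le {w : E3 → ℝ} (hw : IsTest w) (hm : ∫ x, w x ^ 2 ≤ 1)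
    (hC1 : ∫ x, ‖fderiv ℝ w x‖ ^ 2 ≤ S.C1) :
    coulombD (fun x => w x ^ 2) (fun x => w x ^ 2) ≤ (S.C1 + 1) / 4 := by
  unfold coulombD
  have hC1' := C1_pos S
  have inner : ∀ x : E3, ∫ y, w x ^ 2 * w y ^ 2 / ‖x - y‖ ≤ (S.C1 + 1) / 2 * w x ^ 2 := by
    intro x
    have e : ∫ y, w x ^ 2 * w y ^ 2 / ‖x - y‖ = w x ^ 2 * ∫ y, w y ^ 2 * invd x y := by
      rw [← integral_const_mul]
      congr 1
      ext y
      unfold invd
      rw [norm_sub_rev, div_eq_mul_inv]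
      ring
    rw [e]
    have h := coulomb_weak_real one_pos x (hw.memLp 2) (hw.memLp_grad 2) (isWeakGradient_grad hw)
    simp_rw [norm_grad] at h
    have h2 : ∫ y, w y ^ 2 * invd x y ≤ (S.C1 + 1) / 2 := by
      linarith
    calc w x ^ 2 * ∫ y, w y ^ 2 * invd x y ≤ w x ^ 2 * ((S.C1 + 1) / 2) := by gcongr
      _ = _ := by ring
  have outer : ∫ x, ∫ y, w x ^ 2 * w y ^ 2 / ‖x - y‖ ≤ ∫ x, (S.C1 + 1) / 2 * w x ^ 2 := by
    apply integral_mono_of_nonneg
    · apply Eventually.of_forall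
      intro x
      apply integral_nonneg
      intro y
      positivity
    · exact (integrable_test hw).const_mul _
    · exact Eventually.of_forall inner
  rw [integral_const_mul] at outer
  have h3 : (S.C1 + 1) / 2 * ∫ x, w x ^ 2 ≤ (S.C1 + 1) / 2 * 1 := by gcongr
  linarith

lemma P_le {M : ℝ} (hM : 0 < M) {w : E3 → ℝ} (hw : IsTest w) (h0 : ∀ x, 0 ≤ w x)
    (hwM : ∀ x, w x ≤ M) :
    ∫ x, (w x ^ 2) ^ S.p ≤ (M ^ 2) ^ (S.p - 4 / 3) * ∫ x, w x ^ (8 / 3 : ℝ) := by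
  have hp := S.p_gt
  rw [← integral_const_mul]
  have hp0 := p_pos S
  apply integral_mono
  · exact hw.integrable_comp (g := fun t => (t ^ 2) ^ S.p)
      ((Real.continuous_rpow_const hp0.le).comp (continuous_pow 2))
      (by simp [Real.zero_rpow hp0.ne'])
  · exact (hw.integrable_comp (g := fun t => t ^ (8 / 3 : ℝ))
      (Real.continuous_rpow_const (by norm_num)) (Real.zero_rpow (by norm_num))).const_mul _
  · intro x
    change (w x ^ 2) ^ S.p ≤ (M ^ 2) ^ (S.p - 4 / 3) * w x ^ (8 / 3 : ℝ)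
    have e : w x ^ (8 / 3 : ℝ) = (w x ^ 2) ^ (4 / 3 : ℝ) := by
      rw [← Real.rpow_natCast, ← Real.rpow_mul (h0 x)]
      norm_num
    rw [e]
    rcases (h0 x).eq_or_lt with h | h
    · rw [← h, zero_pow (by norm_num), Real.zero_rpow hp0.ne', Real.zero_rpow (by norm_num)]
      simp
    · have h2 : 0 < w x ^ 2 := by positivity
      have e2 : (w x ^ 2) ^ S.p = (w x ^ 2) ^ (S.p - 4 / 3) * (w x ^ 2) ^ (4 / 3 : ℝ) := by
        rw [← Real.rpow_add h2]
        congr 1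
        ring
      rw [e2]
      have h3 : (w x ^ 2) ^ (S.p - 4 / 3) ≤ (M ^ 2) ^ (S.p - 4 / 3) := by
        apply Real.rpow_le_rpow h2.le _ (by linarith)
        exact pow_le_pow_left₀ (h0 x) (hwM x) 2
      gcongr

/-- the energy of `s w²` -/
lemma energy_scaled {s : ℝ} (hs : 0 ≤ s) {w : E3 → ℝ} (hw : IsTest w) (h0 : ∀ x, 0 ≤ w x) :
    S.energy (fun x => (√s * w x) ^ 2) (grad (fun x => √s * w x))
      = s * (S.A * (∫ x, ‖fderiv ℝ w x‖ ^ 2) - ∫ x, S.V x * w x ^ 2)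
        + S.γ / S.p * (s ^ S.p * ∫ x, (w x ^ 2) ^ S.p)
        - 3 * S.C / 4 * (s ^ (4 / 3 : ℝ) * ∫ x, w x ^ (8 / 3 : ℝ))
        + s ^ 2 * coulombD (fun x => w x ^ 2) (fun x => w x ^ 2) + S.U := by
  have hw' : IsTest (fun x => √s * w x) := hw.const_mul _
  have h0' : ∀ x, 0 ≤ √s * w x := fun x => mul_nonneg (Real.sqrt_nonneg _) (h0 x)
  have hsq : ∀ x, (√s * w x) ^ 2 = s * w x ^ 2 := by
    intro x
    rw [mul_pow, Real.sq_sqrt hs]
  unfold Params.energy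
  rw [integral_J (admissible_test S hw' h0') (integrable_test hw')]
  have e1 : ∫ x, ‖grad (fun x => √s * w x) x‖ ^ 2 = s * ∫ x, ‖fderiv ℝ w x‖ ^ 2 := by
    rw [← integral_const_mul]
    congr 1
    ext x
    rw [norm_grad]
    have : fderiv ℝ (fun x => √s * w x) x = √s • fderiv ℝ w x :=
      ((((hw.1.differentiable (by simp)) x).hasFDerivAt).const_mul (√s)).fderiv
    rw [this, norm_smul, mul_pow, Real.norm_eq_abs, sq_abs, Real.sq_sqrt hs]
  have e2 : ∫ x, ((√s * w x) ^ 2) ^ S.p = s ^ S.p * ∫ x, (w x ^ 2) ^ S.p := by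
    rw [← integral_const_mul]
    congr 1
    ext x
    rw [hsq, Real.mul_rpow hs (by positivity)]
  have e3 : ∫ x, ((√s * w x) ^ 2) ^ (4 / 3 : ℝ) = s ^ (4 / 3 : ℝ) * ∫ x, w x ^ (8 / 3 : ℝ) := by
    rw [← integral_const_mul]
    congr 1
    ext x
    rw [hsq, Real.mul_rpow hs (by positivity), ← Real.rpow_natCast (w x), ← Real.rpow_mul (h0 x)]
    norm_num
  have e4 : ∫ x, S.V x * (√s * w x) ^ 2 = s * ∫ x, S.V x * w x ^ 2 := by
    rw [← integral_const_mul]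
    congr 1
    ext x
    rw [hsq]
    ring
  have e5 : coulombD (fun x => (√s * w x) ^ 2) (fun x => (√s * w x) ^ 2)
      = s ^ 2 * coulombD (fun x => w x ^ 2) (fun x => w x ^ 2) := by
    simp_rw [hsq]
    exact coulombD_scale s _
  rw [e1, e2, e3, e4, e5]
  ring

/-- a small positive `θ` -/
lemma exists_theta : ∃ θ : ℝ, 0 < θ ∧ θ ≤ 1 ∧
    S.γ / S.p * θ ^ (S.p - 4 / 3) ≤ 3 * S.C / 8 := by
  have hγ := S.γ_pos
  have hp := p_pos S
  have hC := S.C_pos
  have hq : 0 < S.p - 4 / 3 := by linarith [S.p_gt]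
  set y := 3 * S.C / 8 / (S.γ / S.p)
  have hy : 0 < y := by positivity
  refine ⟨min 1 (y ^ (1 / (S.p - 4 / 3))), by positivity, min_le_left _ _, ?_⟩
  have h1 : (min 1 (y ^ (1 / (S.p - 4 / 3)))) ^ (S.p - 4 / 3) ≤ y := by
    calc _ ≤ (y ^ (1 / (S.p - 4 / 3))) ^ (S.p - 4 / 3) :=
          Real.rpow_le_rpow (by positivity) (min_le_right _ _) hq.le
      _ = y := by
          rw [← Real.rpow_mul hy.le]
          rw [one_div_mul_cancel hq.ne', Real.rpow_one]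
  calc S.γ / S.p * (min 1 (y ^ (1 / (S.p - 4 / 3)))) ^ (S.p - 4 / 3) ≤ S.γ / S.p * y := by gcongr
    _ = 3 * S.C / 8 := by
        simp only [y]
        field_simp

/-- Main upper bound: for every `Λ > 0` there is a test density of mass in `[0, Λ]` whose energy
lies strictly below the tangent line at zero. -/
theorem exists_below {Λ : ℝ} (hΛ : 0 < Λ) : ∃ w, IsTest w ∧ (∀ x, 0 ≤ w x) ∧
    ∫ x, w x ^ 2 ≤ Λ ∧ S.energy (fun x => w x ^ 2) (grad w) < S.U - S.a * ∫ x, w x ^ 2 := by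
  have ha := a_pos S
  have hA := S.A_pos
  have hC := S.C_pos
  have hγ := S.γ_pos
  have hp := S.p_gt
  have hp0 := p_pos S
  have hC2 := C2_pos S
  have hC1 := C1_pos S
  obtain ⟨c, hc, hcX⟩ := exists_X_lower S (b := S.a / 2) (by positivity) (S6_nonneg S)
  obtain ⟨θ, hθ, hθ1, hθ2⟩ := exists_theta S
  -- choice of t
  set B := 3 * S.C / 8 * θ ^ (1 / 3 : ℝ) * c with hB
  have hBpos : 0 < B := by positivity
  obtain ⟨t, ht, ht1, ht2, ht3, ht4⟩ : ∃ t : ℝ, 0 < t ∧ t ≤ 1 ∧ (2 + S.C2) * t ≤ S.a / 2 ∧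
      (2 + S.C2 + (S.C1 + 1)) * t < B ∧ t ≤ Λ := by
    refine ⟨min (min 1 Λ) (min (S.a / 2 / (2 + S.C2)) (B / (2 * (2 + S.C2 + (S.C1 + 1))))),
      by positivity, (min_le_left _ _).trans (min_le_left _ _), ?_, ?_,
      (min_le_left _ _).trans (min_le_right _ _)⟩
    · have := (min_le_right (min 1 Λ) (min (S.a / 2 / (2 + S.C2)) (B / (2 * (2 + S.C2 + (S.C1 + 1)))))).trans
        (min_le_left _ _)
      calc (2 + S.C2) * _ ≤ (2 + S.C2) * (S.a / 2 / (2 + S.C2)) := by gcongr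
        _ = S.a / 2 := by field_simp
    · have := (min_le_right (min 1 Λ) (min (S.a / 2 / (2 + S.C2)) (B / (2 * (2 + S.C2 + (S.C1 + 1)))))).trans
        (min_le_right _ _)
      calc (2 + S.C2 + (S.C1 + 1)) * _
          ≤ (2 + S.C2 + (S.C1 + 1)) * (B / (2 * (2 + S.C2 + (S.C1 + 1)))) := by gcongr
        _ = B / 2 := by field_simp
        _ < B := by linarith
  -- M = t⁻³, δ = t³
  have ht3' : t ^ 3 ≤ t := by
    calc t ^ 3 ≤ t ^ 1 := pow_le_pow_of_le_one ht.le ht1 (by norm_num)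
      _ = t := pow_one t
  have hδa : t ^ 3 ≤ S.a := by nlinarith
  set M := (t ^ 3)⁻¹ with hM
  have hMpos : 0 < M := by positivity
  obtain ⟨w, hw, hw0, hwM, hw2, hwG, hwE⟩ := near_min S hMpos (by positivity : 0 < t ^ 3) hδa
  have hCM : S.C2 / M = S.C2 * t ^ 3 := by
    rw [hM]
    field_simp
  rw [hCM] at hwE
  have hVw : S.a / 2 ≤ ∫ x, S.V x * w x ^ 2 := by
    have h1 : 0 ≤ S.A * ∫ x, ‖fderiv ℝ w x‖ ^ 2 := by positivity
    have h2 : (2 + S.C2) * t ^ 3 ≤ S.a / 2 := by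
      calc (2 + S.C2) * t ^ 3 ≤ (2 + S.C2) * t := by gcongr
        _ ≤ _ := ht2
    nlinarith
  have hw6 : ∫ x, w x ^ 6 ≤ S.S6 := by
    refine hw.six_le.trans ?_
    unfold Params.S6
    have h0 : 0 ≤ ∫ x, ‖fderiv ℝ w x‖ ^ 2 := by positivity
    have := KS_nonneg
    gcongr
  have hX := hcX w hw hw0 hw2 hw6 hVw
  set X := ∫ x, w x ^ (8 / 3 : ℝ) with hXdef
  have hP := P_le S hMpos hw hw0 hwM
  rw [← hXdef] at hP
  have hD := coulombD_test_le S hw hw2 hwG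
  set D := coulombD (fun x => w x ^ 2) (fun x => w x ^ 2)
  -- s = θ t⁶
  set s := θ * t ^ 6 with hs
  have hspos : 0 < s := by positivity
  have hst : s ≤ t := by
    have : t ^ 6 ≤ t ^ 1 := pow_le_pow_of_le_one ht.le ht1 (by norm_num)
    calc s ≤ 1 * t ^ 1 := by rw [hs]; gcongr
      _ = t := by ring
  have hm0 : 0 ≤ ∫ x, w x ^ 2 := by positivity
  have hw' : IsTest (fun x => √s * w x) := hw.const_mul _
  have hw0' : ∀ x, 0 ≤ √s * w x := fun x => mul_nonneg (Real.sqrt_nonneg _) (hw0 x)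
  have hmass : ∫ x, (√s * w x) ^ 2 = s * ∫ x, w x ^ 2 := by
    rw [← integral_const_mul]
    congr 1
    ext x
    rw [mul_pow, Real.sq_sqrt hspos.le]
  refine ⟨fun x => √s * w x, hw', hw0', ?_, ?_⟩
  · rw [hmass]
    calc s * ∫ x, w x ^ 2 ≤ t * 1 := by gcongr
      _ ≤ Λ := by linarith
  · rw [energy_scaled S hspos.le hw hw0, hmass]
    -- powers of s
    have hs43 : s ^ (4 / 3 : ℝ) = s * s ^ (1 / 3 : ℝ) := by
      have : s * s ^ (1 / 3 : ℝ) = s ^ (1 : ℝ) * s ^ (1 / 3 : ℝ) := by rw [Real.rpow_one]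
      rw [this, ← Real.rpow_add hspos]
      norm_num
    have hs13 : s ^ (1 / 3 : ℝ) = θ ^ (1 / 3 : ℝ) * t ^ 2 := by
      rw [hs, Real.mul_rpow hθ.le (by positivity), ← Real.rpow_natCast t 6, ← Real.rpow_mul ht.le]
      norm_num
    have hsp : s ^ S.p * (M ^ 2) ^ (S.p - 4 / 3) = s * s ^ (1 / 3 : ℝ) * θ ^ (S.p - 4 / 3) := by
      have e1 : s ^ S.p = s ^ (4 / 3 : ℝ) * s ^ (S.p - 4 / 3) := by
        rw [← Real.rpow_add hspos]
        congr 1
        ring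
      rw [e1, hs43, mul_assoc, ← Real.mul_rpow hspos.le (by positivity)]
      congr 2
      rw [hs, hM]
      field_simp
    -- bound of the repulsive power term
    have hPterm : S.γ / S.p * (s ^ S.p * ∫ x, (w x ^ 2) ^ S.p)
        ≤ s * (3 * S.C / 8 * (s ^ (1 / 3 : ℝ) * X)) := by
      have hXn : 0 ≤ X := hc.le.trans hX
      calc S.γ / S.p * (s ^ S.p * ∫ x, (w x ^ 2) ^ S.p)
          ≤ S.γ / S.p * (s ^ S.p * ((M ^ 2) ^ (S.p - 4 / 3) * X)) := by gcongr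
        _ = (S.γ / S.p * θ ^ (S.p - 4 / 3)) * (s * s ^ (1 / 3 : ℝ) * X) := by
            rw [← mul_assoc (s ^ S.p), hsp]
            ring
        _ ≤ (3 * S.C / 8) * (s * s ^ (1 / 3 : ℝ) * X) := by gcongr
        _ = _ := by ring
    have hXterm : B * t ^ 2 ≤ 3 * S.C / 8 * (s ^ (1 / 3 : ℝ) * X) := by
      rw [hs13, hB]
      calc 3 * S.C / 8 * θ ^ (1 / 3 : ℝ) * c * t ^ 2 = 3 * S.C / 8 * (θ ^ (1 / 3 : ℝ) * t ^ 2 * c) := by
            ring
        _ ≤ _ := by gcongr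
    have hexp : S.A * (∫ x, ‖fderiv ℝ w x‖ ^ 2) - (∫ x, S.V x * w x ^ 2)
        + S.a * (∫ x, w x ^ 2) ≤ (2 + S.C2) * t ^ 3 := by
      nlinarith
    have hDs : s * D ≤ (S.C1 + 1) * t ^ 3 := by
      have h1 : s ≤ t ^ 3 := by
        have : t ^ 6 ≤ t ^ 3 := pow_le_pow_of_le_one ht.le ht1 (by norm_num)
        calc s ≤ 1 * t ^ 3 := by rw [hs]; gcongr
          _ = t ^ 3 := by ring
      calc s * D ≤ s * ((S.C1 + 1) / 4) := by gcongr
        _ ≤ t ^ 3 * ((S.C1 + 1) / 4) := by gcongr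
        _ ≤ _ := by nlinarith [pow_pos ht 3]
    have hfin : (2 + S.C2) * t ^ 3 + (S.C1 + 1) * t ^ 3 < B * t ^ 2 := by
      have : (2 + S.C2) * t ^ 3 + (S.C1 + 1) * t ^ 3 = ((2 + S.C2 + (S.C1 + 1)) * t) * t ^ 2 := by
        ring
      rw [this]
      exact mul_lt_mul_of_pos_right ht3 (by positivity)
    have hX43 : 3 * S.C / 4 * (s ^ (4 / 3 : ℝ) * X)
        = s * (2 * (3 * S.C / 8 * (s ^ (1 / 3 : ℝ) * X))) := by
      rw [hs43]
      ring
    rw [hX43]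
    have key : S.A * (∫ x, ‖fderiv ℝ w x‖ ^ 2) - (∫ x, S.V x * w x ^ 2)
        + S.a * (∫ x, w x ^ 2) - 3 * S.C / 8 * (s ^ (1 / 3 : ℝ) * X) + s * D < 0 := by
      linarith
    have key2 : s * (S.A * (∫ x, ‖fderiv ℝ w x‖ ^ 2) - (∫ x, S.V x * w x ^ 2)
        + S.a * (∫ x, w x ^ 2) - 3 * S.C / 8 * (s ^ (1 / 3 : ℝ) * X) + s * D) < 0 :=
      mul_neg_of_pos_of_neg hspos key
    nlinarith

/-- The TFDW energy is not convex on any interval `[0, Λ]`. -/
theorem not_convexOn {Λ : ℝ} (hΛ : 0 < Λ) : ¬ ConvexOn ℝ (Icc 0 Λ) S.E := by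
  intro hconv
  obtain ⟨w, hw, hw0, hwΛ, hE⟩ := exists_below S hΛ
  have hA := S.A_pos
  have hK0 := S.K0_pos
  set l0 := ∫ x, w x ^ 2 with hl0
  have hl0n : 0 ≤ l0 := by positivity
  set d := S.U - S.a * l0 - S.energy (fun x => w x ^ 2) (grad w) with hd
  have hdpos : 0 < d := by linarith
  -- upper bounds
  have hU1 : S.E l0 ≤ S.U - S.a * l0 - d := by
    have := csInf_le (bddBelow_energies S l0) (energy_mem S hw hw0)
    unfold Params.E
    linarith
  have hU0 : S.E 0 ≤ S.U := by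
    have hz : IsTest (fun _ : E3 => (0 : ℝ)) := ⟨contDiff_const, HasCompactSupport.zero⟩
    have hmem := energy_mem S hz (fun _ => le_rfl)
    have e1 : ∫ _ : E3, (0 : ℝ) ^ 2 = 0 := by simp
    rw [e1] at hmem
    have h1 := csInf_le (bddBelow_energies S 0) hmem
    have e2 : S.energy (fun _ : E3 => (0 : ℝ) ^ 2) (grad fun _ => 0) = S.U := by
      have h43 : (0 : ℝ) ^ (4 / 3 : ℝ) = 0 := Real.zero_rpow (by norm_num)
      have hp : (0 : ℝ) ^ S.p = 0 := Real.zero_rpow (p_pos S).ne'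
      have hg : ∀ x, grad (fun _ : E3 => (0 : ℝ)) x = 0 := by
        intro x
        simp [grad]
      unfold Params.energy Params.J coulombD
      simp [h43, hp, hg]
    rw [e2] at h1
    exact h1
  -- lower bound at t * l0
  have hlow : ∀ t : ℝ, 0 < t → t ≤ 1 →
      S.U - S.a * (t ^ 3 * l0) - t * S.K0 * (t ^ 3 * l0)
        - S.cX ^ 2 * (t ^ 3 * l0) ^ (5 / 3 : ℝ) / (2 * t * S.A) ≤ S.E (t ^ 3 * l0) := by
    intro t ht ht1
    apply le_csInf (nonempty_energies S (by positivity))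
    rintro e ⟨ρ, G, hadm, hi, hlam, rfl⟩
    have := energy_lower hadm hi (ε := t / 2) (by positivity) (by linarith)
    have e1 : 2 * (t / 2) = t := by ring
    have e2 : 4 * (t / 2) = 2 * t := by ring
    rw [hlam, e1, e2] at this
    exact this
  -- convexity
  have hcx : ∀ t : ℝ, 0 < t → t ≤ 1 → S.E (t ^ 3 * l0) ≤ t ^ 3 * S.E l0 + (1 - t ^ 3) * S.E 0 := by
    intro t ht ht1
    have ht3 : t ^ 3 ≤ 1 := pow_le_one₀ ht.le ht1
    have := hconv.2 (x := l0) ⟨hl0n, hwΛ⟩ (y := 0) ⟨le_rfl, hΛ.le⟩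
      (by positivity : 0 ≤ t ^ 3) (by linarith : 0 ≤ 1 - t ^ 3) (by ring)
    simpa using this
  -- combine
  have hcomb : ∀ t : ℝ, 0 < t → t ≤ 1 →
      d ≤ t * (S.K0 * l0 + S.cX ^ 2 * l0 ^ (5 / 3 : ℝ) / (2 * S.A)) := by
    intro t ht ht1
    have h1 := hlow t ht ht1
    have h2 := hcx t ht ht1
    have ht3 : t ^ 3 ≤ 1 := pow_le_one₀ ht.le ht1
    have h3 : S.E (t ^ 3 * l0) ≤ t ^ 3 * (S.U - S.a * l0 - d) + (1 - t ^ 3) * S.U := by
      have := mul_le_mul_of_nonneg_left hU1 (by positivity : 0 ≤ t ^ 3)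
      have := mul_le_mul_of_nonneg_left hU0 (by linarith : 0 ≤ 1 - t ^ 3)
      linarith
    have e1 : (t ^ 3 * l0) ^ (5 / 3 : ℝ) = t ^ 5 * l0 ^ (5 / 3 : ℝ) := by
      rw [Real.mul_rpow (by positivity) hl0n, ← Real.rpow_natCast t 3, ← Real.rpow_mul ht.le,
        ← Real.rpow_natCast t 5]
      norm_num
    rw [e1] at h1
    have e2 : S.cX ^ 2 * (t ^ 5 * l0 ^ (5 / 3 : ℝ)) / (2 * t * S.A)
        = t ^ 3 * (t * (S.cX ^ 2 * l0 ^ (5 / 3 : ℝ) / (2 * S.A))) := by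
      field_simp
    rw [e2] at h1
    have h4 : t ^ 3 * d ≤ t ^ 3 * (t * (S.K0 * l0 + S.cX ^ 2 * l0 ^ (5 / 3 : ℝ) / (2 * S.A))) := by
      nlinarith
    exact le_of_mul_le_mul_left h4 (by positivity)
  set Q := S.K0 * l0 + S.cX ^ 2 * l0 ^ (5 / 3 : ℝ) / (2 * S.A) with hQ
  have hQ0 : 0 ≤ Q := by positivity
  have h5 := hcomb (min 1 (d / (2 * (Q + 1)))) (by positivity) (min_le_left _ _)
  have h6 : min 1 (d / (2 * (Q + 1))) * Q ≤ d / 2 := by
    calc min 1 (d / (2 * (Q + 1))) * Q ≤ d / (2 * (Q + 1)) * Q := by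
          gcongr
          exact min_le_right _ _
      _ = d / 2 * (Q / (Q + 1)) := by field_simp
      _ ≤ d / 2 * 1 := by
          gcongr
          rw [div_le_one (by positivity)]
          linarith
      _ = d / 2 := mul_one _
  linarith

end Pool.Agent.MP_a69704_mp
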