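import Pool.Agent.MP_a69704_mp.Defs

open MeasureTheory Set Filter Topology
open scoped ENNReal NNReal

noncomputable section

namespace Pool.Agent.MP_a69704_mp

/-- Cauchy-Schwarz with a weight of total mass one -/
lemma lintegral_weight_sq_le {h : E3 → ℝ≥0∞} {f : E3 → ℝ≥0∞} (hh : AEMeasurable h)
    (hf : AEMeasurable f) (h1 : ∫⁻ t, h t = 1) :
    (∫⁻ t, h t * f t) ^ 2 ≤ ∫⁻ t, h t * f t ^ 2 := by
  have hpq : (2 : ℝ).HolderConjugate 2 := by
    rw [Real.holderConjugate_iff]; norm_num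
  have key := ENNReal.lintegral_mul_le_Lp_mul_Lq (volume : Measure E3) hpq
    (f := fun t => h t ^ (1 / 2 : ℝ)) (g := fun t => h t ^ (1 / 2 : ℝ) * f t)
    (hh.pow_const _) ((hh.pow_const _).mul hf)
  have e1 : ∀ t, ((fun t => h t ^ (1 / 2 : ℝ)) * fun t => h t ^ (1 / 2 : ℝ) * f t) t
      = h t * f t := by
    intro t
    simp only [Pi.mul_apply]
    rw [← mul_assoc, ← ENNReal.rpow_add_of_nonneg _ _ (by norm_num) (by norm_num)]
    norm_num
  have e2 : ∀ t, (h t ^ (1 / 2 : ℝ)) ^ (2 : ℝ) = h t := by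
    intro t
    rw [← ENNReal.rpow_mul]
    norm_num
  have e3 : ∀ t, (h t ^ (1 / 2 : ℝ) * f t) ^ (2 : ℝ) = h t * f t ^ 2 := by
    intro t
    rw [ENNReal.mul_rpow_of_nonneg _ _ (by norm_num), e2]
    norm_num
  simp only [e1, e2, e3, h1] at key
  rw [ENNReal.one_rpow, one_mul] at key
  calc (∫⁻ t, h t * f t) ^ 2 ≤ ((∫⁻ t, h t * f t ^ 2) ^ (1 / 2 : ℝ)) ^ 2 := by gcongr
    _ = ∫⁻ t, h t * f t ^ 2 := by
      rw [← ENNReal.rpow_natCast, ← ENNReal.rpow_mul]
      norm_num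

variable {F : Type*} [NormedAddCommGroup F] [NormedSpace ℝ F]

/-- convolution with a kernel -/
def smear (η : E3 → ℝ) (f : E3 → F) (x : E3) : F := ∫ t, η (x - t) • f t

lemma lintegral_shift {η : E3 → ℝ} (x : E3) :
    ∫⁻ t, ‖η (x - t)‖ₑ = ∫⁻ t, ‖η t‖ₑ :=
  lintegral_sub_left_eq_self (fun t => ‖η t‖ₑ) x

lemma lintegral_enorm_smear_sq_le {η : E3 → ℝ} (hη : Continuous η)
    (h1 : ∫⁻ t, ‖η t‖ₑ = 1) {f : E3 → F} (hf : AEStronglyMeasurable f) :
    ∫⁻ x, ‖smear η f x‖ₑ ^ 2 ≤ ∫⁻ x, ‖f x‖ₑ ^ 2 := by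
  have step1 : ∀ x, ‖smear η f x‖ₑ ^ 2 ≤ ∫⁻ t, ‖η (x - t)‖ₑ * ‖f t‖ₑ ^ 2 := by
    intro x
    have m1 : AEMeasurable (fun t => ‖η (x - t)‖ₑ) :=
      ((hη.comp (continuous_const.sub continuous_id)).enorm).measurable.aemeasurable
    calc ‖smear η f x‖ₑ ^ 2 ≤ (∫⁻ t, ‖η (x - t) • f t‖ₑ) ^ 2 := by
          gcongr
          exact enorm_integral_le_lintegral_enorm _
      _ = (∫⁻ t, ‖η (x - t)‖ₑ * ‖f t‖ₑ) ^ 2 := by simp_rw [enorm_smul]
      _ ≤ ∫⁻ t, ‖η (x - t)‖ₑ * ‖f t‖ₑ ^ 2 :=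
          lintegral_weight_sq_le m1 hf.enorm (by rw [lintegral_shift, h1])
  calc ∫⁻ x, ‖smear η f x‖ₑ ^ 2 ≤ ∫⁻ x, ∫⁻ t, ‖η (x - t)‖ₑ * ‖f t‖ₑ ^ 2 := lintegral_mono step1
    _ = ∫⁻ t, ∫⁻ x, ‖η (x - t)‖ₑ * ‖f t‖ₑ ^ 2 := by
        apply lintegral_lintegral_swap
        have ma : AEMeasurable (fun p : E3 × E3 => ‖η (p.1 - p.2)‖ₑ) (volume.prod volume) :=
          ((hη.comp (continuous_fst.sub continuous_snd)).enorm).measurable.aemeasurable
        have mb : AEMeasurable (fun p : E3 × E3 => ‖f p.2‖ₑ ^ 2) (volume.prod volume) :=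
          (hf.enorm.pow_const 2).comp_quasiMeasurePreserving Measure.quasiMeasurePreserving_snd
        exact ma.mul mb
    _ = ∫⁻ t, ‖f t‖ₑ ^ 2 := by
        apply lintegral_congr
        intro t
        rw [lintegral_mul_const]
        · have : ∫⁻ x, ‖η (x - t)‖ₑ = 1 := by
            rw [lintegral_sub_right_eq_self (fun x => ‖η x‖ₑ) t, h1]
          rw [this, one_mul]
        · exact ((hη.comp (continuous_id.sub continuous_const)).enorm).measurable

/-- a mollifier: smooth, compactly supported, nonnegative, of total mass one -/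
structure IsMollifier (η : E3 → ℝ) : Prop where
  smooth : ContDiff ℝ (⊤ : ℕ∞) η
  cc : HasCompactSupport η
  nonneg : ∀ x, 0 ≤ η x
  mass : ∫ x, η x = 1

lemma IsMollifier.lintegral {η : E3 → ℝ} (h : IsMollifier η) : ∫⁻ t, ‖η t‖ₑ = 1 := by
  have hi : Integrable η := h.smooth.continuous.integrable_of_hasCompactSupport h.cc
  rw [← ofReal_integral_norm_eq_lintegral_enorm hi]
  have : ∫ x, ‖η x‖ = ∫ x, η x := by
    congr 1
    ext x
    exact Real.norm_of_nonneg (h.nonneg x)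
  rw [this, h.mass, ENNReal.ofReal_one]

/-- the function `t ↦ η (x - t)` is a legitimate test function -/
lemma contDiff_shift {η : E3 → ℝ} (h : ContDiff ℝ (⊤ : ℕ∞) η) (x : E3) :
    ContDiff ℝ (⊤ : ℕ∞) (fun t => η (x - t)) :=
  h.comp (contDiff_const.sub contDiff_id)

lemma hasCompactSupport_shift {η : E3 → ℝ} (h : HasCompactSupport η) (x : E3) :
    HasCompactSupport (fun t => η (x - t)) :=
  h.comp_homeomorph (Homeomorph.subLeft x)

lemma fderiv_shift {η : E3 → ℝ} (h : ContDiff ℝ (⊤ : ℕ∞) η) (x t v : E3) :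
    fderiv ℝ (fun t => η (x - t)) t v = -(fderiv ℝ η (x - t) v) := by
  have h1 : HasFDerivAt (fun t => x - t) (-(ContinuousLinearMap.id ℝ E3)) t :=
    (hasFDerivAt_id t).const_sub x
  have h2 : HasFDerivAt η (fderiv ℝ η (x - t)) (x - t) :=
    ((h.differentiable (by simp)) (x - t)).hasFDerivAt
  have h3 := h2.comp t h1
  have h4 : HasFDerivAt (fun t => η (x - t)) ((fderiv ℝ η (x - t)).comp (-(ContinuousLinearMap.id ℝ E3))) t := h3
  rw [h4.fderiv]
  simp

open scoped Convolution in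
lemma smear_eq_convolution (η : E3 → ℝ) (f : E3 → F) :
    smear η f = (η ⋆[ContinuousLinearMap.lsmul ℝ ℝ, volume] f) := by
  funext x
  rw [convolution_eq_swap]
  rfl

lemma contDiff_smear {η : E3 → ℝ} (h : IsMollifier η) {f : E3 → F} (hf : LocallyIntegrable f) :
    ContDiff ℝ (⊤ : ℕ∞) (smear η f) := by
  rw [smear_eq_convolution]
  exact h.cc.contDiff_convolution_left _ h.smooth hf

open scoped Convolution in
lemma fderiv_smear {η : E3 → ℝ} (h : IsMollifier η) {f : E3 → ℝ} (hf : LocallyIntegrable f)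
    (x v : E3) :
    fderiv ℝ (smear η f) x v = ∫ t, fderiv ℝ η (x - t) v * f t := by
  have h1 := h.cc.hasFDerivAt_convolution_left (ContinuousLinearMap.lsmul ℝ ℝ)
    (h.smooth.of_le (by simp)) hf x
  rw [← smear_eq_convolution] at h1
  rw [h1.fderiv, convolution_eq_swap]
  rw [ContinuousLinearMap.integral_apply]
  · simp
  · have hc : HasCompactSupport (fderiv ℝ η) := h.cc.fderiv ℝ
    have hcont : Continuous (fderiv ℝ η) := h.smooth.continuous_fderiv (by simp)
    have := (hc.convolutionExists_left (ContinuousLinearMap.precompL E3 (ContinuousLinearMap.lsmul ℝ ℝ)) hcont hf x).integrable_swap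
    exact this

lemma inner_smear {η : E3 → ℝ} (h : IsMollifier η) {G : E3 → E3} (hG : LocallyIntegrable G)
    (x v : E3) : inner ℝ (smear η G x) v = ∫ t, inner ℝ (G t) v * η (x - t) := by
  unfold smear
  rw [real_inner_comm, ← integral_inner]
  · congr 1
    ext t
    rw [inner_smul_right, real_inner_comm]
    ring
  · have := (hasCompactSupport_shift h.cc x)
    exact hG.integrable_smul_left_of_hasCompactSupport
      ((contDiff_shift h.smooth x).continuous) this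

lemma fderiv_smear_eq_inner {η : E3 → ℝ} (h : IsMollifier η) {ψ : E3 → ℝ} {G : E3 → E3}
    (hψ : LocallyIntegrable ψ) (hG : LocallyIntegrable G) (hw : IsWeakGradient ψ G) (x v : E3) :
    fderiv ℝ (smear η ψ) x v = inner ℝ (smear η G x) v := by
  rw [fderiv_smear h hψ, inner_smear h hG]
  have h1 := hw (fun t => η (x - t)) (contDiff_shift h.smooth x) (hasCompactSupport_shift h.cc x) v
  simp_rw [fderiv_shift h.smooth] at h1
  have h2 : ∫ t, ψ t * -(fderiv ℝ η (x - t) v) = -∫ t, fderiv ℝ η (x - t) v * ψ t := by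
    rw [← integral_neg]
    congr 1
    ext t
    ring
  rw [h2] at h1
  linarith

lemma norm_fderiv_smear_le {η : E3 → ℝ} (h : IsMollifier η) {ψ : E3 → ℝ} {G : E3 → E3}
    (hψ : LocallyIntegrable ψ) (hG : LocallyIntegrable G) (hw : IsWeakGradient ψ G) (x : E3) :
    ‖fderiv ℝ (smear η ψ) x‖ ≤ ‖smear η G x‖ := by
  apply ContinuousLinearMap.opNorm_le_bound _ (norm_nonneg _)
  intro v
  rw [fderiv_smear_eq_inner h hψ hG hw, Real.norm_eq_abs]
  exact abs_real_inner_le_norm _ _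

end Pool.Agent.MP_a69704_mp
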